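import Mathlib

set_option autoImplicit false

/-!
# A one-sided isoperimetric inequality in the discrete cube

For `f : {0,1}^n → [0,1]` with mean `m`
`m (1 - m) ≤ E sqrt ((f (1 - f))² + κ² ∑ i, ((f (flip i x) - f x)⁺)²)`, where `κ = 29/50`.
For a set `A` the square root is `κ` times that of the number of neighbours in `A`, outside `A`.
-/

namespace Pool.Agent.U522.HJ

open Finset

/-- flip the coordinate `i` -/
def fl {n : ℕ} (i : Fin n) (x : Fin n → Bool) : Fin n → Bool := Function.update x i (!x i)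

/-- the mean over the cube -/
noncomputable def mu {n : ℕ} (f : (Fin n → Bool) → ℝ) : ℝ := (∑ x, f x) / 2 ^ n

/-- the positive part of a difference -/
noncomputable def dp (a b : ℝ) : ℝ := max (b - a) 0

/-- the square of the one-sided gradient -/
noncomputable def gr {n : ℕ} (f : (Fin n → Bool) → ℝ) (x : Fin n → Bool) : ℝ :=
  ∑ i, dp (f x) (f (fl i x)) ^ 2

lemma mu_succ {n : ℕ} (f : (Fin (n + 1) → Bool) → ℝ) :
    mu f = (mu (fun x : Fin n → Bool => f (Fin.cons false x))
      + mu (fun x : Fin n → Bool => f (Fin.cons true x))) / 2 := by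
  unfold mu
  have h : ∑ x, f x = ∑ p : Bool × (Fin n → Bool), f (Fin.cons p.1 p.2) := by
    refine (Fintype.sum_equiv (Fin.consEquiv (fun _ => Bool)) _ _ fun p => ?_).symm
    rfl
  rw [h, Fintype.sum_prod_type, Fintype.sum_bool, pow_succ]
  have : (2 : ℝ) ^ n ≠ 0 := by positivity
  field_simp
  ring

lemma mu_mono {n : ℕ} {f g : (Fin n → Bool) → ℝ} (h : ∀ x, f x ≤ g x) : mu f ≤ mu g := by
  unfold mu
  exact div_le_div_of_nonneg_right (sum_le_sum fun x _ => h x) (by positivity)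

lemma mu_nonneg {n : ℕ} {f : (Fin n → Bool) → ℝ} (h : ∀ x, 0 ≤ f x) : 0 ≤ mu f := by
  unfold mu
  exact div_nonneg (sum_nonneg fun x _ => h x) (by positivity)

lemma mu_le_one {n : ℕ} {f : (Fin n → Bool) → ℝ} (h : ∀ x, f x ≤ 1) : mu f ≤ 1 := by
  unfold mu
  rw [div_le_one (by positivity)]
  refine (sum_le_sum fun x _ => h x).trans (le_of_eq ?_)
  simp

lemma mu_add {n : ℕ} (f g : (Fin n → Bool) → ℝ) : mu (fun x => f x + g x) = mu f + mu g := by
  unfold mu
  rw [sum_add_distrib, add_div]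

lemma mu_sub {n : ℕ} (f g : (Fin n → Bool) → ℝ) : mu (fun x => f x - g x) = mu f - mu g := by
  unfold mu
  rw [sum_sub_distrib, sub_div]

lemma mu_smul {n : ℕ} (t : ℝ) (f : (Fin n → Bool) → ℝ) : mu (fun x => t * f x) = t * mu f := by
  unfold mu
  rw [← mul_sum, mul_div_assoc]

lemma mu_const {n : ℕ} (t : ℝ) : mu (fun _ : Fin n → Bool => t) = t := by
  unfold mu
  simp

/-- Minkowski: `‖(E u, E w)‖ ≤ E ‖(u, w)‖` -/
lemma minkowski {n : ℕ} (u w : (Fin n → Bool) → ℝ) :
    Real.sqrt (mu u ^ 2 + mu w ^ 2) ≤ mu (fun x => Real.sqrt (u x ^ 2 + w x ^ 2)) := by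
  set s := Real.sqrt (mu u ^ 2 + mu w ^ 2) with hs
  have hs2 : s ^ 2 = mu u ^ 2 + mu w ^ 2 := Real.sq_sqrt (by positivity)
  have hs0 : 0 ≤ s := Real.sqrt_nonneg _
  rcases hs0.eq_or_lt with h | h
  · rw [← h]
    exact mu_nonneg fun x => Real.sqrt_nonneg _
  · have h1 : ∀ x, mu u * u x + mu w * w x ≤ s * Real.sqrt (u x ^ 2 + w x ^ 2) := by
      intro x
      have h2 : (mu u * u x + mu w * w x) ^ 2 ≤ (s * Real.sqrt (u x ^ 2 + w x ^ 2)) ^ 2 := by
        rw [mul_pow, hs2, Real.sq_sqrt (by positivity)]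
        nlinarith [sq_nonneg (mu u * w x - mu w * u x)]
      exact abs_le_of_sq_le_sq' h2 (mul_nonneg hs0 (Real.sqrt_nonneg _)) |>.2
    have h3 := mu_mono h1
    rw [mu_add, mu_smul, mu_smul, mu_smul] at h3
    have h4 : mu u * mu u + mu w * mu w = s * s := by nlinarith
    rw [h4] at h3
    exact le_of_mul_le_mul_left h3 h

/-- the two point inequality, `κ² = 841/2500` -/
lemma two_point {a b : ℝ} (ha1 : a ≤ 1) (hb1 : b ≤ 1) (hab : b ≤ a) :
    (a + b) / 2 * (1 - (a + b) / 2) ≤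
      (a * (1 - a) + Real.sqrt ((b * (1 - b)) ^ 2 + (29 / 50 * (a - b)) ^ 2)) / 2 := by
  have h1 : b * (1 - b) + (a - b) ^ 2 / 2 ≤
      Real.sqrt ((b * (1 - b)) ^ 2 + (29 / 50 * (a - b)) ^ 2) := by
    apply Real.le_sqrt_of_sq_le
    have h2 : b * (1 - b) + (a - b) ^ 2 / 4 ≤ 841 / 2500 := by
      have h3 : (a - b) ^ 2 ≤ (1 - b) ^ 2 := by nlinarith
      nlinarith [sq_nonneg (b - 1 / 3)]
    nlinarith [mul_nonneg (sq_nonneg (a - b)) (sub_nonneg.2 h2)]
  nlinarith

lemma dp_nonneg (a b : ℝ) : 0 ≤ dp a b := le_max_right _ _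

lemma two_point' {a b : ℝ} (ha0 : 0 ≤ a) (ha1 : a ≤ 1) (hb0 : 0 ≤ b) (hb1 : b ≤ 1) :
    (a + b) / 2 * (1 - (a + b) / 2) ≤
      (Real.sqrt ((a * (1 - a)) ^ 2 + (29 / 50 * dp a b) ^ 2)
        + Real.sqrt ((b * (1 - b)) ^ 2 + (29 / 50 * dp b a) ^ 2)) / 2 := by
  rcases le_total b a with h | h
  · have h1 : dp a b = 0 := max_eq_right (by linarith)
    have h2 : dp b a = a - b := max_eq_left (by linarith)
    have h3 := two_point ha1 hb1 h
    rw [h1, h2]
    have h4 : Real.sqrt ((a * (1 - a)) ^ 2 + (29 / 50 * 0) ^ 2) = a * (1 - a) := by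
      rw [mul_zero, zero_pow two_ne_zero, add_zero]
      exact Real.sqrt_sq (mul_nonneg ha0 (by linarith))
    rw [h4]
    exact h3
  · have h1 : dp b a = 0 := max_eq_right (by linarith)
    have h2 : dp a b = b - a := max_eq_left (by linarith)
    have h3 := two_point hb1 ha1 h
    rw [h1, h2]
    have h4 : Real.sqrt ((b * (1 - b)) ^ 2 + (29 / 50 * 0) ^ 2) = b * (1 - b) := by
      rw [mul_zero, zero_pow two_ne_zero, add_zero]
      exact Real.sqrt_sq (mul_nonneg hb0 (by linarith))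
    rw [h4, add_comm a b]
    linarith

lemma fl_zero_cons {n : ℕ} (b : Bool) (x : Fin n → Bool) :
    fl 0 (Fin.cons b x : Fin (n + 1) → Bool) = Fin.cons (!b) x := by
  unfold fl
  simp [Fin.update_cons_zero]

lemma fl_succ_cons {n : ℕ} (b : Bool) (x : Fin n → Bool) (i : Fin n) :
    fl i.succ (Fin.cons b x : Fin (n + 1) → Bool) = Fin.cons b (fl i x) := by
  unfold fl
  simp [Fin.cons_update]

/-- the functional isoperimetric inequality -/
theorem iso {n : ℕ} : ∀ (f : (Fin n → Bool) → ℝ), (∀ x, 0 ≤ f x) → (∀ x, f x ≤ 1) →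
    mu f * (1 - mu f) ≤
      mu (fun x => Real.sqrt ((f x * (1 - f x)) ^ 2 + (29 / 50) ^ 2 * gr f x)) := by
  induction n with
  | zero =>
    intro f h0 h1
    have e : ∀ g : (Fin 0 → Bool) → ℝ, mu g = g (fun i => i.elim0) := by
      intro g
      unfold mu
      rw [Fintype.sum_unique, pow_zero, div_one]
      exact congrArg g (funext fun i => i.elim0)
    rw [e, e]
    apply Real.le_sqrt_of_sq_le
    unfold gr
    simp
  | succ n ih =>
    intro f h0 h1
    set f0 : (Fin n → Bool) → ℝ := fun x => f (Fin.cons false x) with hf0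
    set f1 : (Fin n → Bool) → ℝ := fun x => f (Fin.cons true x) with hf1
    have i0 := ih f0 (fun x => h0 _) (fun x => h1 _)
    have i1 := ih f1 (fun x => h0 _) (fun x => h1 _)
    have a0 : 0 ≤ mu f0 := mu_nonneg fun x => h0 _
    have a1 : mu f0 ≤ 1 := mu_le_one fun x => h1 _
    have b0 : 0 ≤ mu f1 := mu_nonneg fun x => h0 _
    have b1 : mu f1 ≤ 1 := mu_le_one fun x => h1 _
    have h2 := two_point' a0 a1 b0 b1
    -- one half
    have half : ∀ g g' : (Fin n → Bool) → ℝ, (∀ x, 0 ≤ g x) → (∀ x, g x ≤ 1) →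
        mu g * (1 - mu g) ≤ mu (fun x => Real.sqrt ((g x * (1 - g x)) ^ 2 + (29 / 50) ^ 2 * gr g x)) →
        Real.sqrt ((mu g * (1 - mu g)) ^ 2 + (29 / 50 * dp (mu g) (mu g')) ^ 2) ≤
        mu (fun x => Real.sqrt ((g x * (1 - g x)) ^ 2 + (29 / 50) ^ 2 * (dp (g x) (g' x) ^ 2
          + gr g x))) := by
      intro g g' g0 g1 hg
      set U : (Fin n → Bool) → ℝ := fun x => Real.sqrt ((g x * (1 - g x)) ^ 2
        + (29 / 50) ^ 2 * gr g x) with hU
      set W : (Fin n → Bool) → ℝ := fun x => 29 / 50 * dp (g x) (g' x) with hW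
      have hgr : ∀ x, 0 ≤ gr g x := fun x => sum_nonneg fun i _ => sq_nonneg _
      have hm := minkowski U W
      have e1 : ∀ x, Real.sqrt (U x ^ 2 + W x ^ 2) = Real.sqrt ((g x * (1 - g x)) ^ 2
          + (29 / 50) ^ 2 * (dp (g x) (g' x) ^ 2 + gr g x)) := by
        intro x
        congr 1
        rw [hU, hW]
        simp only
        rw [Real.sq_sqrt (by have := hgr x; positivity)]
        ring
      simp only [e1] at hm
      refine le_trans (Real.sqrt_le_sqrt ?_) hm
      have h3 : dp (mu g) (mu g') ≤ mu (fun x => dp (g x) (g' x)) := by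
        unfold dp
        refine max_le ?_ (mu_nonneg fun x => le_max_right _ _)
        rw [← mu_sub]
        exact mu_mono fun x => le_max_left _ _
      have h4 : mu W = 29 / 50 * mu (fun x => dp (g x) (g' x)) := mu_smul _ _
      have h5 : 0 ≤ mu g * (1 - mu g) := mul_nonneg (mu_nonneg g0) (by
        have := mu_le_one g1
        linarith)
      have h6 : (mu g * (1 - mu g)) ^ 2 ≤ mu U ^ 2 := by
        have h7 := hg
        nlinarith
      have h8 : (29 / 50 * dp (mu g) (mu g')) ^ 2 ≤ mu W ^ 2 := by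
        rw [h4]
        have := dp_nonneg (mu g) (mu g')
        nlinarith
      linarith
    have k0 := half f0 f1 (fun x => h0 _) (fun x => h1 _) i0
    have k1 := half f1 f0 (fun x => h0 _) (fun x => h1 _) i1
    have g0 : ∀ x, gr f (Fin.cons false x) = dp (f0 x) (f1 x) ^ 2 + gr f0 x := by
      intro x
      unfold gr
      rw [Fin.sum_univ_succ]
      simp only [fl_zero_cons, fl_succ_cons, Bool.not_false]
      rfl
    have g1 : ∀ x, gr f (Fin.cons true x) = dp (f1 x) (f0 x) ^ 2 + gr f1 x := by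
      intro x
      unfold gr
      rw [Fin.sum_univ_succ]
      simp only [fl_zero_cons, fl_succ_cons, Bool.not_true]
      rfl
    rw [mu_succ f, mu_succ (fun x => Real.sqrt ((f x * (1 - f x)) ^ 2 + (29 / 50) ^ 2 * gr f x))]
    simp only [g0, g1]
    change (mu f0 + mu f1) / 2 * (1 - (mu f0 + mu f1) / 2) ≤ _
    refine h2.trans ?_
    exact div_le_div_of_nonneg_right (add_le_add k0 k1) (by norm_num)

/-- the indicator of a set -/
noncomputable def ii {X : Type} (A : Set X) (x : X) : ℝ := A.indicator (fun _ => (1 : ℝ)) x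

lemma ii_mem {X : Type} {A : Set X} {x : X} (h : x ∈ A) : ii A x = 1 :=
  Set.indicator_of_mem h _

lemma ii_notMem {X : Type} {A : Set X} {x : X} (h : x ∉ A) : ii A x = 0 :=
  Set.indicator_of_notMem h _

lemma ii_nonneg {X : Type} (A : Set X) (x : X) : 0 ≤ ii A x := by
  by_cases h : x ∈ A
  · rw [ii_mem h]; norm_num
  · rw [ii_notMem h]

lemma ii_le {X : Type} (A : Set X) (x : X) : ii A x ≤ 1 := by
  by_cases h : x ∈ A
  · rw [ii_mem h]
  · rw [ii_notMem h]; norm_num

/-- the isoperimetric inequality for a set `A` -/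
theorem iso_set {n : ℕ} (A : Set (Fin n → Bool)) (w : (Fin n → Bool) → ℝ) (hw : ∀ x, 0 ≤ w x)
    (h : ∀ x, x ∉ A → ∑ i, ii A (fl i x) ≤ w x ^ 2) :
    mu (ii A) * (1 - mu (ii A)) ≤ 29 / 50 * mu w := by
  refine (iso (ii A) (ii_nonneg A) (ii_le A)).trans ?_
  rw [← mu_smul]
  refine mu_mono fun x => ?_
  by_cases hA : x ∈ A
  · have h1 : gr (ii A) x = 0 := by
      unfold gr
      refine sum_eq_zero fun i _ => ?_
      have : dp (ii A x) (ii A (fl i x)) = 0 := by
        rw [ii_mem hA]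
        exact max_eq_right (by have := ii_le A (fl i x); linarith)
      rw [this]
      norm_num
    rw [h1, ii_mem hA]
    have := hw x
    simp only [sub_self, mul_zero, ne_eq, OfNat.ofNat_ne_zero, not_false_eq_true, zero_pow,
      add_zero, Real.sqrt_zero]
    positivity
  · have h1 : gr (ii A) x ≤ w x ^ 2 := by
      refine le_trans (sum_le_sum fun i _ => ?_) (h x hA)
      rw [ii_notMem hA]
      have h2 := ii_nonneg A (fl i x)
      have h3 := ii_le A (fl i x)
      have h4 : dp 0 (ii A (fl i x)) = ii A (fl i x) := by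
        unfold dp
        rw [sub_zero]
        exact max_eq_left h2
      rw [h4]
      nlinarith
    rw [ii_notMem hA]
    refine Real.sqrt_le_iff.2 ⟨mul_nonneg (by norm_num) (hw x), ?_⟩
    nlinarith

end Pool.Agent.U522.HJ
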