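import Mathlib
import Pool.Agent.U522.HJ.Iso

set_option autoImplicit false

/-!
# Independent sets of the cube and antipodal pairs

For an independent set `I` of the cube `{0,1}^l` put `F = 2 · 1_I - 1`. Then the mean of
`(-1)^l F(x) F(x̄)` is at least `1 - (4 + 116/25 √(2l)) (1 - 2 μ(I))`.
-/

namespace Pool.Agent.U522.HJ

open Finset

variable {l : ℕ}

/-- the antipode -/
def neg (x : Fin l → Bool) : Fin l → Bool := fun i => !x i

lemma neg_neg' (x : Fin l → Bool) : neg (neg x) = x := by
  funext i
  simp [neg]

lemma fl_fl (i : Fin l) (x : Fin l → Bool) : fl i (fl i x) = x := by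
  unfold fl
  funext j
  by_cases h : j = i
  · subst h; simp
  · simp [h]

lemma fl_comm {i j : Fin l} (h : i ≠ j) (x : Fin l → Bool) : fl i (fl j x) = fl j (fl i x) := by
  unfold fl
  funext k
  by_cases h1 : k = i
  · subst h1
    simp [h]
  · by_cases h2 : k = j
    · subst h2
      simp [h1]
    · simp [h1, h2]

lemma mu_fl (i : Fin l) (f : (Fin l → Bool) → ℝ) : mu (fun x => f (fl i x)) = mu f := by
  unfold mu
  congr 1
  exact Fintype.sum_bijective (fl i) (Function.Involutive.bijective (fl_fl i)) _ _ fun x => rfl

lemma mu_neg (f : (Fin l → Bool) → ℝ) : mu (fun x => f (neg x)) = mu f := by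
  unfold mu
  congr 1
  exact Fintype.sum_bijective neg (Function.Involutive.bijective neg_neg') _ _ fun x => rfl

lemma mu_sum {ι : Type} (s : Finset ι) (f : ι → (Fin l → Bool) → ℝ) :
    mu (fun x => ∑ i ∈ s, f i x) = ∑ i ∈ s, mu (f i) := by
  unfold mu
  rw [sum_comm, sum_div]

/-- the parity -/
noncomputable def par (x : Fin l → Bool) : ℝ := ∏ i, (if x i then (-1 : ℝ) else 1)

lemma par_fl (i : Fin l) (x : Fin l → Bool) : par (fl i x) = - par x := by
  unfold par
  rw [← mul_prod_erase univ _ (mem_univ i), ← mul_prod_erase univ _ (mem_univ i)]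
  have h : ∏ j ∈ univ.erase i, (if fl i x j = true then (-1 : ℝ) else 1)
      = ∏ j ∈ univ.erase i, (if x j = true then (-1 : ℝ) else 1) := by
    refine prod_congr rfl fun j hj => ?_
    have : j ≠ i := ne_of_mem_erase hj
    simp [fl, this]
  rw [h]
  have h2 : (if fl i x i = true then (-1 : ℝ) else 1) = - (if x i = true then (-1 : ℝ) else 1) := by
    unfold fl
    cases hx : x i <;> simp
  rw [h2]
  ring

lemma par_neg (x : Fin l → Bool) : par (neg x) = (-1) ^ l * par x := by
  unfold par
  have h : ∀ i : Fin l, (if neg x i = true then (-1 : ℝ) else 1)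
      = (-1) * (if x i = true then (-1 : ℝ) else 1) := by
    intro i
    unfold neg
    cases hx : x i <;> simp
  simp only [h]
  rw [prod_mul_distrib]
  simp

lemma par_sq (x : Fin l → Bool) : par x * par x = 1 := by
  unfold par
  rw [← prod_mul_distrib]
  refine prod_eq_one fun i _ => ?_
  split_ifs <;> norm_num

lemma par_cases (x : Fin l → Bool) : par x = 1 ∨ par x = -1 :=
  mul_self_eq_one_iff.1 (par_sq x)

variable (I : Set (Fin l → Bool))

/-- the sign of the indicator -/
noncomputable def FF (x : Fin l → Bool) : ℝ := 2 * ii I x - 1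

lemma ii_cases {X : Type} (A : Set X) (x : X) : (x ∈ A ∧ ii A x = 1) ∨ (x ∉ A ∧ ii A x = 0) := by
  by_cases h : x ∈ A
  · exact Or.inl ⟨h, ii_mem h⟩
  · exact Or.inr ⟨h, ii_notMem h⟩

theorem cut (hl : 1 ≤ l) (hI : ∀ x ∈ I, ∀ i, fl i x ∉ I) :
    1 - (4 + 116 / 25 * Real.sqrt (2 * l)) * (1 - 2 * mu (ii I))
      ≤ mu (fun x => (-1) ^ l * (FF I x * FF I (neg x))) := by
  classical
  have hle : ∀ x i, ii I x + ii I (fl i x) ≤ 1 := by
    intro x i
    rcases ii_cases I x with ⟨h1, h2⟩ | ⟨h1, h2⟩
    · rw [h2, ii_notMem (hI x h1 i)]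
      norm_num
    · rw [h2]
      have := ii_le I (fl i x)
      linarith
  set e : Fin l → (Fin l → Bool) → ℝ := fun i x => 1 - ii I x - ii I (fl i x) with he
  have he0 : ∀ i x, 0 ≤ e i x := fun i x => by
    have := hle x i
    simp only [he]
    linarith
  set b : (Fin l → Bool) → ℝ := fun x => ∑ i, e i x with hb
  have hb0 : ∀ x, 0 ≤ b x := fun x => sum_nonneg fun i _ => he0 i x
  set D := mu (ii I) with hD
  have hmub : mu b = l * (1 - 2 * D) := by
    rw [hb, mu_sum]
    have : ∀ i ∈ (univ : Finset (Fin l)), mu (e i) = 1 - 2 * D := by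
      intro i _
      simp only [he]
      rw [mu_sub, mu_sub, mu_const, mu_fl i (ii I)]
      ring
    rw [sum_congr rfl this, sum_const, card_univ, Fintype.card_fin, nsmul_eq_mul]
  have hl' : (1 : ℝ) ≤ l := by exact_mod_cast hl
  have hl0 : (0 : ℝ) < l := by linarith
  have hδ : 0 ≤ 1 - 2 * D := by
    have h1 := mu_nonneg hb0
    rw [hmub] at h1
    by_contra h
    push Not at h
    nlinarith
  -- the separator
  set U : Set (Fin l → Bool) := {x | (l : ℝ) + 1 ≤ 2 * b x} with hU
  set G : (Fin l → Bool) → ℝ := fun x => par x * FF I x with hG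
  have hG1 : ∀ x, G x = 1 ∨ G x = -1 := by
    intro x
    simp only [hG, FF]
    rcases par_cases x with h | h <;> rcases ii_cases I x with ⟨-, h2⟩ | ⟨-, h2⟩ <;>
      rw [h, h2] <;> norm_num
  -- defect edges
  have hdef : ∀ x i, (e i x = 1 ∧ G (fl i x) = - G x) ∨ (e i x = 0 ∧ G (fl i x) = G x) := by
    intro x i
    simp only [hG, FF, par_fl, he]
    rcases ii_cases I x with ⟨h1, h2⟩ | ⟨h1, h2⟩
    · have h3 := ii_notMem (hI x h1 i)
      rw [h2, h3]
      right
      constructor <;> ring
    · rcases ii_cases I (fl i x) with ⟨h3, h4⟩ | ⟨h3, h4⟩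
      · rw [h2, h4]
        right
        constructor <;> ring
      · rw [h2, h4]
        left
        constructor <;> ring
  have hGne : ∀ x, G x ≠ - G x := by
    intro x h
    rcases hG1 x with h1 | h1 <;> rw [h1] at h <;> norm_num at h
  have key : ∀ x i, G x ≠ G (fl i x) → x ∈ U ∨ fl i x ∈ U := by
    intro x i hne
    have h0 : e i x = 1 := by
      rcases hdef x i with h | h
      · exact h.1
      · exact (hne h.2.symm).elim
    have h1 : ii I x = 0 ∧ ii I (fl i x) = 0 := by
      simp only [he] at h0
      have h1 := ii_nonneg I x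
      have h2 := ii_nonneg I (fl i x)
      constructor <;> linarith
    have h2 : (l : ℝ) + 1 ≤ b x + b (fl i x) := by
      simp only [hb]
      rw [← sum_add_distrib, ← add_sum_erase univ _ (mem_univ i)]
      have h3 : e i x + e i (fl i x) = 2 := by
        simp only [he]
        rw [fl_fl, h1.1, h1.2]
        norm_num
      have h4 : ∀ j ∈ univ.erase i, (1 : ℝ) ≤ e j x + e j (fl i x) := by
        intro j hj
        have hji : j ≠ i := ne_of_mem_erase hj
        simp only [he]
        rw [h1.1, h1.2, fl_comm hji]
        have := hle (fl j x) i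
        linarith
      have h5 := sum_le_sum h4
      rw [sum_const, card_erase_of_mem (mem_univ i), card_univ, Fintype.card_fin,
        nsmul_eq_mul, mul_one, Nat.cast_sub hl] at h5
      push_cast at h5
      rw [h3]
      linarith
    by_contra hcon
    push Not at hcon
    have h3 : ¬ ((l : ℝ) + 1 ≤ 2 * b x) := hcon.1
    have h4 : ¬ ((l : ℝ) + 1 ≤ 2 * b (fl i x)) := hcon.2
    push Not at h3 h4
    linarith
  -- the two sides have the same number of defect edges
  have hbG : mu (fun x => b x * G x) = 0 := by
    have h1 : (fun x => b x * G x) = fun x => ∑ i, e i x * G x := by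
      funext x
      simp only [hb]
      rw [sum_mul]
    rw [h1, mu_sum]
    refine sum_eq_zero fun i _ => ?_
    have h2 := mu_fl i (fun x => e i x * G x)
    have h3 : (fun x => e i (fl i x) * G (fl i x)) = fun x => (-1) * (e i x * G x) := by
      funext x
      have h4 : e i (fl i x) = e i x := by
        simp only [he]
        rw [fl_fl]
        ring
      rw [h4]
      rcases hdef x i with h | h
      · rw [h.2]; ring
      · rw [h.1]; ring
    beta_reduce at h2
    rw [h3, mu_smul] at h2
    linarith
  -- one side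
  set A : ℝ → Set (Fin l → Bool) := fun s => {x | x ∉ U ∧ G x = s} with hA
  set c : ℝ := Real.sqrt (2 / l) with hc
  have hc2 : c ^ 2 = 2 / l := Real.sq_sqrt (by positivity)
  have hc0 : 0 ≤ c := Real.sqrt_nonneg _
  have hcl : c * l = Real.sqrt (2 * l) := by
    rw [eq_comm, Real.sqrt_eq_iff_mul_self_eq (by positivity) (by positivity)]
    have : c * l * (c * l) = c ^ 2 * l ^ 2 := by ring
    rw [this, hc2]
    field_simp
  have side : ∀ s : ℝ, (s = 1 ∨ s = -1) →
      mu (ii (A s)) * (1 - mu (ii (A s))) ≤ 29 / 50 * (Real.sqrt (2 * l) * (1 - 2 * D)) := by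
    intro s hs
    have h1 : mu (fun x => c * b x) = Real.sqrt (2 * l) * (1 - 2 * D) := by
      rw [mu_smul, hmub, ← mul_assoc, hcl]
    rw [← h1]
    refine iso_set (A s) (fun x => c * b x) (fun x => mul_nonneg hc0 (hb0 x)) ?_
    intro x hx
    by_cases hxU : x ∈ U
    · have h2 : (l : ℝ) + 1 ≤ 2 * b x := hxU
      have hsum : ∑ i, ii (A s) (fl i x) ≤ b x ∨ ∑ i, ii (A s) (fl i x) ≤ l - b x := by
        by_cases hGx : G x = s
        · right
          have e1 : (l : ℝ) - b x = ∑ i, (1 - e i x) := by
            have e2 : ∑ i : Fin l, (1 - e i x) = ∑ _i : Fin l, (1 : ℝ) - ∑ i, e i x :=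
              sum_sub_distrib _ _
            have e3 : ∑ _i : Fin l, (1 : ℝ) = l := by simp
            rw [e2, e3]
          rw [e1]
          refine sum_le_sum fun i _ => ?_
          rcases hdef x i with h | h
          · rw [h.1, ii_notMem]
            · norm_num
            · rintro ⟨-, h3⟩
              rw [h.2, hGx] at h3
              rw [← hGx] at h3
              exact hGne x h3.symm
          · rw [h.1]
            have := ii_le (A s) (fl i x)
            linarith
        · left
          simp only [hb]
          refine sum_le_sum fun i _ => ?_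
          rcases hdef x i with h | h
          · rw [h.1]
            exact ii_le _ _
          · rw [ii_notMem]
            · exact he0 i x
            · rintro ⟨-, h3⟩
              rw [h.2] at h3
              exact hGx h3
      have h3 : (c * b x) ^ 2 = 2 / l * (b x * b x) := by
        rw [mul_pow, hc2]; ring
      have h4 : b x ≤ (c * b x) ^ 2 := by
        rw [h3, div_mul_eq_mul_div, le_div_iff₀ hl0]
        have := hb0 x
        nlinarith
      have h5 : l - b x ≤ (c * b x) ^ 2 := by
        have : (l : ℝ) - b x ≤ b x := by linarith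
        linarith
      rcases hsum with h | h
      · exact h.trans h4
      · exact h.trans h5
    · have hGx : G x ≠ s := fun h => hx ⟨hxU, h⟩
      have h2 : ∑ i, ii (A s) (fl i x) = 0 := by
        refine sum_eq_zero fun i _ => ii_notMem ?_
        rintro ⟨h3, h4⟩
        rcases key x i (by rw [h4]; exact hGx) with h | h
        · exact hxU h
        · exact h3 h
      rw [h2]
      positivity
  have hneg : ∀ x, G (neg x) * G x = (-1) ^ l * (FF I x * FF I (neg x)) := by
    intro x
    simp only [hG]
    rw [par_neg]
    have := par_sq x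
    calc (-1) ^ l * par x * FF I (neg x) * (par x * FF I x)
        = (-1) ^ l * (par x * par x) * (FF I x * FF I (neg x)) := by ring
      _ = _ := by rw [this]; ring
  have lower : ∀ s : ℝ, (s = 1 ∨ s = -1) →
      1 - 4 * (mu (ii (A s)) + (1 - 2 * D))
        ≤ mu (fun x => (-1) ^ l * (FF I x * FF I (neg x))) := by
    intro s hs
    set X : Set (Fin l → Bool) := {x | G x = s} with hX
    have h1 : ∀ x, 1 - 2 * ii X x - 2 * ii X (neg x) ≤ (-1) ^ l * (FF I x * FF I (neg x)) := by
      intro x
      rw [← hneg x]
      have u1 := ii_nonneg X x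
      have u2 := ii_nonneg X (neg x)
      by_cases hp : G (neg x) * G x = 1
      · rw [hp]; linarith
      · have h3 : G (neg x) * G x = -1 := by
          rcases hG1 x with h | h <;> rcases hG1 (neg x) with h' | h' <;> rw [h, h'] at hp ⊢ <;>
            first
            | (norm_num; done)
            | (exact absurd (by norm_num) hp)
        rw [h3]
        have h8 : G x = s ∨ G (neg x) = s := by
          rcases hG1 x with h | h <;> rcases hG1 (neg x) with h' | h' <;>
            rcases hs with hs | hs <;>
            first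
            | (left; rw [h, hs]; done)
            | (right; rw [h', hs]; done)
            | (exfalso; rw [h, h'] at h3; norm_num at h3)
        rcases h8 with h8 | h8
        · have : ii X x = 1 := ii_mem h8
          rw [this]; linarith
        · have : ii X (neg x) = 1 := ii_mem h8
          rw [this]; linarith
    have h2 := mu_mono h1
    rw [mu_sub, mu_sub, mu_const, mu_smul, mu_smul, mu_neg] at h2
    have h3 : ∀ x, ii X x ≤ ii (A s) x + 1 / ((l : ℝ) + 1) * (b x + s * (b x * G x)) := by
      intro x
      have hb' := hb0 x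
      have hs2 : ∀ y : ℝ, (y = 1 ∨ y = -1) → 0 ≤ 1 + s * y := by
        intro y hy
        rcases hs with rfl | rfl <;> rcases hy with rfl | rfl <;> norm_num
      have h5 : 0 ≤ b x + s * (b x * G x) := by
        have := hs2 (G x) (hG1 x)
        have h6 : b x + s * (b x * G x) = b x * (1 + s * G x) := by ring
        rw [h6]
        exact mul_nonneg hb' this
      by_cases hx : G x = s
      · have hxX : x ∈ X := hx
        rw [ii_mem hxX]
        by_cases hxU : x ∈ U
        · have h4 : (l : ℝ) + 1 ≤ 2 * b x := hxU
          have h6 : b x + s * (b x * G x) = 2 * b x := by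
            rw [hx]
            rcases hs with rfl | rfl <;> ring
          rw [h6]
          have h7 : 1 ≤ 1 / ((l : ℝ) + 1) * (2 * b x) := by
            rw [one_div_mul_eq_div, le_div_iff₀ (by positivity)]
            linarith
          have := ii_nonneg (A s) x
          linarith
        · have : x ∈ A s := ⟨hxU, hx⟩
          rw [ii_mem this]
          have : 0 ≤ 1 / ((l : ℝ) + 1) * (b x + s * (b x * G x)) := by positivity
          linarith
      · have hxX : x ∉ X := hx
        rw [ii_notMem hxX]
        have := ii_nonneg (A s) x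
        have : 0 ≤ 1 / ((l : ℝ) + 1) * (b x + s * (b x * G x)) := by positivity
        linarith
    have h4 := mu_mono h3
    rw [mu_add, mu_smul, mu_add, mu_smul, hbG, hmub, mul_zero, add_zero] at h4
    have h5 : 1 / ((l : ℝ) + 1) * (l * (1 - 2 * D)) ≤ 1 - 2 * D := by
      rw [one_div_mul_eq_div, div_le_iff₀ (by positivity)]
      nlinarith
    linarith
  have hsum : mu (ii (A 1)) + mu (ii (A (-1))) ≤ 1 := by
    rw [← mu_add]
    refine mu_le_one fun x => ?_
    rcases ii_cases (A 1) x with ⟨h1, h2⟩ | ⟨h1, h2⟩
    · have : x ∉ A (-1) := by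
        rintro ⟨-, h3⟩
        have h4 := h1.2
        rw [h3] at h4
        norm_num at h4
      rw [h2, ii_notMem this]
      norm_num
    · rw [h2]
      have := ii_le (A (-1)) x
      linarith
  have fin : ∀ s : ℝ, (s = 1 ∨ s = -1) → mu (ii (A s)) ≤ 1 / 2 →
      1 - (4 + 116 / 25 * Real.sqrt (2 * l)) * (1 - 2 * D)
      ≤ mu (fun x => (-1) ^ l * (FF I x * FF I (neg x))) := by
    intro s hs hh
    refine le_trans ?_ (lower s hs)
    have h1 := side s hs
    have h2 : 0 ≤ mu (ii (A s)) := mu_nonneg (ii_nonneg _)
    have h3 : mu (ii (A s)) ≤ 2 * (29 / 50 * (Real.sqrt (2 * l) * (1 - 2 * D))) := by nlinarith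
    linarith
  rcases le_total (mu (ii (A 1))) (mu (ii (A (-1)))) with h | h
  · exact fin 1 (Or.inl rfl) (by linarith)
  · exact fin (-1) (Or.inr rfl) (by linarith)

end Pool.Agent.U522.HJ
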