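import Mathlib
import Pool.Agent.U522.HJ.Abs
import Pool.Agent.R814.PHJ.Pat

set_option autoImplicit false

/-!
# The kernel of the signs, and vector valued kernels
-/

namespace Pool.Agent.U522.HJ

open Finset Filter Topology Pool.Agent.TH7.DH Pool.Agent.R814.PHJ

variable {d : ℕ}

/-- the join of two patterns over disjoint index sets; the mixed cells are empty -/
def jn {ι ρ : Type} (P : (Fin d → ι) → Prop) (E : (Fin d → ρ) → Prop) :
    (Fin d → ι ⊕ ρ) → Prop :=
  fun c => (∃ e : Fin d → ι, (∀ t, c t = Sum.inl (e t)) ∧ P e) ∨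
    (∃ e : Fin d → ρ, (∀ t, c t = Sum.inr (e t)) ∧ E e)

lemma jn_map {ι ι' ρ : Type} (g : ι' ↪ ι) (P : (Fin d → ι) → Prop)
    (E : (Fin d → ρ) → Prop) (c : Fin d → ι' ⊕ ρ) :
    jn P E (fun t => (g.sumMap (Function.Embedding.refl ρ)) (c t))
      ↔ jn (fun e => P (fun t => g (e t))) E c := by
  constructor
  · rintro (⟨e, he, hP⟩ | ⟨e, he, hE⟩)
    · have h1 : ∀ t, ∃ x, c t = Sum.inl x := by
        intro t
        have := he t
        beta_reduce at this
        rcases hc : c t with x | x
        · exact ⟨x, rfl⟩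
        · rw [hc] at this
          simp at this
      choose e' he' using h1
      refine Or.inl ⟨e', he', ?_⟩
      have h2 : (fun t => g (e' t)) = e := by
        funext t
        have := he t
        beta_reduce at this
        rw [he' t] at this
        simpa using this
      change P (fun t => g (e' t))
      rw [h2]
      exact hP
    · refine Or.inr ⟨e, fun t => ?_, hE⟩
      have := he t
      beta_reduce at this
      rcases hc : c t with x | x
      · rw [hc] at this
        simp at this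
      · rw [hc] at this
        simpa using this
  · rintro (⟨e, he, hP⟩ | ⟨e, he, hE⟩)
    · exact Or.inl ⟨fun t => g (e t), fun t => by beta_reduce; rw [he t]; rfl, hP⟩
    · exact Or.inr ⟨e, fun t => by beta_reduce; rw [he t]; rfl, hE⟩

lemma jn_inr {ι ρ : Type} (hd : 1 ≤ d) (P : (Fin d → ι) → Prop)
    (E : (Fin d → ρ) → Prop) (c : Fin d → ρ) :
    jn P E (fun t => (Function.Embedding.inr : ρ ↪ ι ⊕ ρ) (c t)) ↔ E c := by
  constructor
  · rintro (⟨e, he, -⟩ | ⟨e, he, hE⟩)
    · have := he ⟨0, hd⟩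
      simp at this
    · have h2 : c = e := by
        funext t
        have := he t
        simpa using this
      rw [h2]
      exact hE
  · intro h
    exact Or.inr ⟨c, fun t => rfl, h⟩

lemma ASys.K_jn_same (S : ASys d) (hd : 1 ≤ d) {ι ρ : Type} [Fintype ι] [Fintype ρ]
    (P P' : (Fin d → ι) → Prop) (hP : ∀ c, P c ↔ P' c) (E E' : (Fin d → ρ) → Prop) :
    S.K (ι ⊕ ρ) (jn P E) (jn P' E') = S.K ρ E E' := by
  rw [S.K_loc (Function.Embedding.inr : ρ ↪ ι ⊕ ρ)]
  · exact S.K_congr (fun c => jn_inr hd P E c) (fun c => jn_inr hd P' E' c)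
  · rintro c ⟨t, ht⟩
    have h1 : ∀ E'' : (Fin d → ρ) → Prop,
        ¬ ∃ e : Fin d → ρ, (∀ t, c t = Sum.inr (e t)) ∧ E'' e := by
      rintro E'' ⟨e, he, -⟩
      exact ht ⟨e t, (he t).symm⟩
    unfold jn
    simp only [h1, or_false, hP]

/-- the kernel of a linear combination of planted patterns -/
noncomputable def ASys.der (S : ASys d) (hd : 1 ≤ d) (ρ : Type) [Fintype ρ] (J : Type) [Fintype J]
    (c : J → ℝ) (E : J → (Fin d → ρ) → Prop) : ASys d where
  K := fun ι _ P Q => ∑ i, ∑ j, c i * c j * S.K (ι ⊕ ρ) (jn P (E i)) (jn Q (E j))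
  v := ∑ i, ∑ j, c i * c j * S.K ρ (E i) (E j)
  B := ∑ i, ∑ j, |c i| * |c j| * S.B
  K_abs := by
    intro ι _ P Q
    refine (abs_sum_le_sum_abs _ _).trans (sum_le_sum fun i _ => ?_)
    refine (abs_sum_le_sum_abs _ _).trans (sum_le_sum fun j _ => ?_)
    rw [abs_mul, abs_mul]
    exact mul_le_mul_of_nonneg_left (S.K_abs _ _ _) (by positivity)
  K_loc := by
    intro ι ι' _ _ g P Q h
    refine sum_congr rfl fun i _ => sum_congr rfl fun j _ => ?_
    congr 1
    rw [S.K_loc (g.sumMap (Function.Embedding.refl ρ))]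
    · exact S.K_congr (fun c => jn_map g P (E i) c) (fun c => jn_map g Q (E j) c)
    · rintro c ⟨t, ht⟩
      rcases hc : c t with x | x
      · have hx : x ∉ Set.range g := by
          rintro ⟨y, hy⟩
          apply ht
          refine ⟨Sum.inl y, ?_⟩
          rw [hc, ← hy]
          rfl
        have h1 : ∀ E'' : (Fin d → ρ) → Prop,
            ¬ ∃ e : Fin d → ρ, (∀ t, c t = Sum.inr (e t)) ∧ E'' e := by
          rintro E'' ⟨e, he, -⟩
          have := he t
          rw [hc] at this
          cases this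
        unfold jn
        simp only [h1, or_false]
        have h2 : ∀ e : Fin d → ι, (∀ t, c t = Sum.inl (e t)) → (P e ↔ Q e) := by
          intro e he
          refine h e ⟨t, ?_⟩
          have h3 := he t
          rw [hc] at h3
          rw [← Sum.inl_injective h3]
          exact hx
        constructor
        · rintro ⟨e, he, hP⟩
          exact ⟨e, he, (h2 e he).1 hP⟩
        · rintro ⟨e, he, hP⟩
          exact ⟨e, he, (h2 e he).2 hP⟩
      · exact (ht ⟨Sum.inr x, by rw [hc]; rfl⟩).elim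
  K_same := by
    intro ι _ P
    refine sum_congr rfl fun i _ => sum_congr rfl fun j _ => ?_
    rw [S.K_jn_same hd P P (fun _ => Iff.rfl)]
  K_symm := by
    intro ι _ P Q
    rw [sum_comm]
    refine sum_congr rfl fun i _ => sum_congr rfl fun j _ => ?_
    rw [S.K_symm, mul_comm (c j)]
  psdJ := by
    intro ι _ J' _ t P
    have h := S.psdJ (ι ⊕ ρ) (J := J' × J) (fun p => t p.1 * c p.2)
      (fun p => jn (P p.1) (E p.2))
    refine h.trans (le_of_eq ?_)
    rw [Fintype.sum_prod_type]
    refine sum_congr rfl fun a _ => ?_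
    have e1 : ∀ i : J, ∑ q : J' × J, t a * c i * (t q.1 * c q.2)
        * S.K (ι ⊕ ρ) (jn (P a) (E i)) (jn (P q.1) (E q.2))
        = ∑ b : J', ∑ j : J, t a * t b * (c i * c j * S.K (ι ⊕ ρ) (jn (P a) (E i))
          (jn (P b) (E j))) := by
      intro i
      rw [Fintype.sum_prod_type]
      refine sum_congr rfl fun b _ => sum_congr rfl fun j _ => ?_
      ring
    rw [sum_congr rfl fun i _ => e1 i, sum_comm]
    refine sum_congr rfl fun b _ => ?_
    simp only [mul_sum]

variable (V : Ultrafilter ℕ) (hV : (V : Filter ℕ) ≤ atTop)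
  (S : (N : ℕ) → Finset (Finset (Fin d → Fin N)))

/-- the kernel of the signs `2 · 1_S - 1` -/
noncomputable def base (hd : 1 ≤ d) : ASys d where
  K := fun ι _ P Q => 4 * (raw V hV S).K ι P Q - 4 * (raw V hV S).v + 1
  v := 1
  B := 9
  K_abs := by
    intro ι _ P Q
    have h1 := abs_le.1 ((raw V hV S).K_abs ι P Q)
    have h2 := v_nonneg (V := V) (hV := hV) (S := S)
    have h3 := v_le (V := V) (hV := hV) (S := S)
    rw [abs_le]
    constructor <;> linarith [h1.1, h1.2]
  K_loc := by
    intro ι ι' _ _ g P Q h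
    rw [(raw V hV S).K_loc g P Q h]
  K_same := by
    intro ι _ P
    rw [(raw V hV S).K_same ι hd P P fun _ => Iff.rfl]
    ring
  K_symm := by
    intro ι _ P Q
    rw [Pool.Agent.R814.PHJ.K_symm (raw V hV S) rfl]
  psdJ := by
    intro ι _ J _ t P
    have v0 := v_nonneg (V := V) (hV := hV) (S := S)
    have v1 := v_le (V := V) (hV := hV) (S := S)
    set D := (raw V hV S).v with hD
    have h := Pool.Agent.R814.PHJ.psdJ (cen V hV S D v0 v1) rfl ι t P
    have e1 : ∀ P Q : (Fin d → ι) → Prop, 4 * (raw V hV S).K ι P Q - 4 * D + 1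
        = 4 * (cen V hV S D v0 v1).K ι P Q + (2 * D - 1) ^ 2 := by
      intro P Q
      rw [cen_K hd v0 v1 hD]
      ring
    simp only [e1]
    have e2 : ∑ i, ∑ j, t i * t j * (4 * (cen V hV S D v0 v1).K ι (P i) (P j) + (2 * D - 1) ^ 2)
        = 4 * (∑ i, ∑ j, t i * t j * (cen V hV S D v0 v1).K ι (P i) (P j))
          + ((2 * D - 1) * ∑ i, t i) ^ 2 := by
      rw [mul_pow, sq (∑ i, t i), sum_mul_sum, mul_sum, mul_sum, ← sum_add_distrib]
      refine sum_congr rfl fun i _ => ?_
      rw [mul_sum, mul_sum, ← sum_add_distrib]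
      refine sum_congr rfl fun j _ => ?_
      ring
    rw [e2]
    have := sq_nonneg ((2 * D - 1) * ∑ i, t i)
    linarith

/-- pointwise inequalities give inequalities for the kernel -/
theorem ptw (hd : 1 ≤ d) {ι : Type} [Fintype ι] {I : Type} [Fintype I]
    (P : I → (Fin d → ι) → Prop) (γ : ℝ) (α : I → ℝ) (β : I → I → ℝ)
    (h : ∀ (N : ℕ) (φ : ι ↪ Fin N) (A : Finset (Fin d → Fin N)),
      0 ≤ γ + ∑ i, α i * ind (S N) (ow φ (P i) A) + ∑ i, ∑ j, β i j
        * ((2 * ind (S N) (ow φ (P i) A) - 1) * (2 * ind (S N) (ow φ (P j) A) - 1))) :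
    0 ≤ γ + ∑ i, α i * (raw V hV S).v + ∑ i, ∑ j, β i j * (base V hV S hd).K ι (P i) (P j) := by
  classical
  set R := raw V hV S with hR
  set k : ℕ → I → I → ℝ := fun N i j => KN N (R.h₁ N) (R.h₂ N) ι (P i) (P j) with hk
  have hT : ∀ i j, Tendsto (fun N => k N i j) V (𝓝 (R.K ι (P i) (P j))) :=
    fun i j => R.tendsto ι (P i) (P j)
  have lim : Tendsto (fun N => γ + ∑ i, α i * k N i i + ∑ i, ∑ j, β i j
      * (4 * k N i j + ((-2) * k N i i + ((-2) * k N j j + 1)))) V
      (𝓝 (γ + ∑ i, α i * R.K ι (P i) (P i) + ∑ i, ∑ j, β i j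
      * (4 * R.K ι (P i) (P j) + ((-2) * R.K ι (P i) (P i)
        + ((-2) * R.K ι (P j) (P j) + 1))))) := by
    refine Tendsto.add (Tendsto.add tendsto_const_nhds ?_) ?_
    · exact tendsto_finsetSum _ fun i _ => (hT i i).const_mul _
    · refine tendsto_finsetSum _ fun i _ => tendsto_finsetSum _ fun j _ => ?_
      refine Tendsto.const_mul _ ?_
      exact ((hT i j).const_mul _).add (((hT i i).const_mul _).add
        (((hT j j).const_mul _).add tendsto_const_nhds))
  have hfin : 0 ≤ γ + ∑ i, α i * R.K ι (P i) (P i) + ∑ i, ∑ j, β i j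
      * (4 * R.K ι (P i) (P j) + ((-2) * R.K ι (P i) (P i)
        + ((-2) * R.K ι (P j) (P j) + 1))) := by
    refine ge_of_tendsto lim ?_
    have hlarge : ∀ᶠ N in (V : Filter ℕ), Fintype.card ι ≤ N := hV (eventually_ge_atTop _)
    filter_upwards [hlarge] with N hN
    have : Nonempty (ι ↪ Fin N) := by
      refine Function.Embedding.nonempty_of_card_le ?_
      rwa [Fintype.card_fin]
    have h0 : 0 ≤ av (fun φ : ι ↪ Fin N => av (fun A : Finset (Fin d → Fin N) =>
        γ + (∑ i, α i * (ind (S N) (ow φ (P i) A) * ind (S N) (ow φ (P i) A))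
          + ∑ i, ∑ j, β i j * (4 * (ind (S N) (ow φ (P i) A) * ind (S N) (ow φ (P j) A))
            + ((-2) * (ind (S N) (ow φ (P i) A) * ind (S N) (ow φ (P i) A))
            + ((-2) * (ind (S N) (ow φ (P j) A) * ind (S N) (ow φ (P j) A)) + 1)))))) := by
      refine av_nonneg fun φ => av_nonneg fun A => ?_
      refine (h N φ A).trans (le_of_eq ?_)
      rw [add_assoc]
      congr 1
      congr 1
      · refine sum_congr rfl fun i _ => ?_
        rw [ind_mul_self]
      · refine sum_congr rfl fun i _ => sum_congr rfl fun j _ => ?_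
        rw [ind_mul_self, ind_mul_self]
        ring
    simp only [av_add, av_smul, av_sum, av_const] at h0
    have k' : ∀ i j : I, av (fun φ : ι ↪ Fin N => av (fun A =>
        ind (S N) (ow φ (P i) A) * ind (S N) (ow φ (P j) A))) = k N i j := fun i j => rfl
    simp only [k'] at h0
    linarith
  have e : ∀ i, R.K ι (P i) (P i) = R.v := fun i => R.K_same ι hd _ _ fun _ => Iff.rfl
  simp only [e] at hfin
  refine hfin.trans (le_of_eq ?_)
  congr 1
  refine sum_congr rfl fun i _ => sum_congr rfl fun j _ => ?_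
  change _ = β i j * (4 * R.K ι (P i) (P j) - 4 * R.v + 1)
  ring

end Pool.Agent.U522.HJ
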