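import Mathlib
import Pool.Agent.U522.HJ.Der
import Pool.Agent.R814.PHJ.Main

set_option autoImplicit false

/-!
# The iteration: averages over cubes at `m` places have small norm
-/

namespace Pool.Agent.U522.HJ

open Finset Filter Topology Pool.Agent.TH7.DH Pool.Agent.R814.PHJ

variable {d : ℕ}

/-- the embedding which adds a place -/
def emb1 {m T T' : ℕ} (hT : T ≤ T') (s a : ℕ) (hs : s + a ≤ T') :
    (Fin a ⊕ Fin s) ⊕ (Fin m × Fin T) → Fin (m + 1) × Fin T'
  | Sum.inl (Sum.inl x) => (0, ⟨s + x, by omega⟩)
  | Sum.inl (Sum.inr x) => (0, ⟨x, by omega⟩)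
  | Sum.inr p => (p.1.succ, Fin.castLE hT p.2)

lemma emb1_inj {m T T' : ℕ} (hT : T ≤ T') (s a : ℕ) (hs : s + a ≤ T') :
    Function.Injective (emb1 (m := m) hT s a hs) := by
  rintro ((x | x) | ⟨j, x⟩) ((y | y) | ⟨k, y⟩) h
  · simp only [emb1, Prod.mk.injEq, Fin.mk.injEq, true_and] at h
    have : x = y := Fin.ext (by omega)
    rw [this]
  · simp only [emb1, Prod.mk.injEq, Fin.mk.injEq, true_and] at h
    have := y.2
    omega
  · simp only [emb1, Prod.mk.injEq] at h
    exact ((Fin.succ_ne_zero k) h.1.symm).elim
  · simp only [emb1, Prod.mk.injEq, Fin.mk.injEq, true_and] at h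
    have := x.2
    omega
  · simp only [emb1, Prod.mk.injEq, Fin.mk.injEq, true_and] at h
    have : x = y := Fin.ext h
    rw [this]
  · simp only [emb1, Prod.mk.injEq] at h
    exact ((Fin.succ_ne_zero k) h.1.symm).elim
  · simp only [emb1, Prod.mk.injEq] at h
    exact ((Fin.succ_ne_zero j) h.1).elim
  · simp only [emb1, Prod.mk.injEq] at h
    exact ((Fin.succ_ne_zero j) h.1).elim
  · simp only [emb1, Prod.mk.injEq] at h
    have h1 : j = k := Fin.succ_injective _ h.1
    have h2 : x = y := Fin.castLE_injective hT h.2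
    rw [h1, h2]

/-- all places planted, sides `u` -/
def pa {m T : ℕ} (u : Fin m → ℕ) : (Fin d → Fin m × Fin T) → Prop := pp u (fun _ => True)

lemma pa_iff {m T : ℕ} (u : Fin m → ℕ) (c : Fin d → Fin m × Fin T) :
    pa u c ↔ ∃ i, ∀ t, (c t).1 = i ∧ ((c t).2 : ℕ) < u i := by
  unfold pa pp
  simp

lemma mem_emb1_zero {m T T' : ℕ} (hT : T ≤ T') (s a : ℕ) (hs : s + a ≤ T')
    (p : Fin (m + 1) × Fin T') (h1 : p.1 = 0) (h2 : (p.2 : ℕ) < s + a) :
    p ∈ Set.range (emb1 (m := m) hT s a hs) := by
  rcases p with ⟨k, z⟩
  simp only at h1 h2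
  subst h1
  by_cases h3 : (z : ℕ) < s
  · exact ⟨Sum.inl (Sum.inr ⟨z, h3⟩), rfl⟩
  · refine ⟨Sum.inl (Sum.inl ⟨z - s, by omega⟩), ?_⟩
    refine Prod.ext rfl (Fin.ext ?_)
    simp only [emb1]
    omega

lemma mem_emb1_succ {m T T' : ℕ} (hT : T ≤ T') (s a : ℕ) (hs : s + a ≤ T')
    (p : Fin (m + 1) × Fin T') (j : Fin m) (h1 : p.1 = j.succ) (h2 : (p.2 : ℕ) < T) :
    p ∈ Set.range (emb1 (m := m) hT s a hs) := by
  rcases p with ⟨k, z⟩
  simp only at h1 h2
  subst h1
  exact ⟨Sum.inr (j, ⟨z, h2⟩), rfl⟩

theorem transfer (B : ASys d) (hd : 1 ≤ d) {m T T' : ℕ} (hT : T ≤ T') (u u' : Fin m → ℕ)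
    (hu : ∀ j, u j ≤ T) (hu' : ∀ j, u' j ≤ T) (s a : ℕ) (hs : s + a ≤ T') :
    B.K (Fin (m + 1) × Fin T') (pa (Fin.cons s u : Fin (m + 1) → ℕ))
      (pa (Fin.cons (s + a) u' : Fin (m + 1) → ℕ))
    = B.K ((Fin a ⊕ Fin s) ⊕ (Fin m × Fin T))
      (jn (fun c => ¬ Hit 1 (Sum.elim (fun _ => 0) (fun _ => 1) : Fin a ⊕ Fin s → ℕ) c) (pa u))
      (jn (fun _ => True) (pa u')) := by
  have t0 : Fin d := ⟨0, hd⟩
  rw [B.K_loc (⟨emb1 (m := m) hT s a hs, emb1_inj hT s a hs⟩ :
    (Fin a ⊕ Fin s) ⊕ (Fin m × Fin T) ↪ Fin (m + 1) × Fin T')]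
  · refine B.K_congr ?_ ?_
    · intro c
      rw [pa_iff]
      simp only [Function.Embedding.coeFn_mk]
      constructor
      · rintro ⟨i, hi⟩
        refine Fin.cases (fun hi => ?_) (fun j hi => ?_) i hi
        · -- the new place
          have h1 : ∀ t, ∃ x : Fin s, c t = Sum.inl (Sum.inr x) := by
            intro t
            have h2 := hi t
            rcases hc : c t with (x | x) | p
            · rw [hc] at h2
              simp only [emb1, Fin.cons_zero, true_and] at h2
              omega
            · exact ⟨x, rfl⟩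
            · rw [hc] at h2
              simp only [emb1] at h2
              exact ((Fin.succ_ne_zero _) h2.1).elim
          choose e he using h1
          refine Or.inl ⟨fun t => Sum.inr (e t), he, ?_⟩
          intro hit
          obtain ⟨t, ht⟩ := hit 0 Nat.one_pos
          simp at ht
        · have h1 : ∀ t, ∃ p : Fin m × Fin T, c t = Sum.inr p := by
            intro t
            have h2 := hi t
            rcases hc : c t with (x | x) | p
            · rw [hc] at h2
              simp only [emb1] at h2
              exact ((Fin.succ_ne_zero _) h2.1.symm).elim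
            · rw [hc] at h2
              simp only [emb1] at h2
              exact ((Fin.succ_ne_zero _) h2.1.symm).elim
            · exact ⟨p, rfl⟩
          choose e he using h1
          refine Or.inr ⟨e, he, (pa_iff _ _).2 ⟨j, fun t => ?_⟩⟩
          have h2 := hi t
          rw [he t] at h2
          simp only [emb1, Fin.cons_succ] at h2
          exact ⟨Fin.succ_injective _ h2.1, h2.2⟩
      · rintro (⟨e, he, h⟩ | ⟨e, he, h⟩)
        · refine ⟨0, fun t => ?_⟩
          rw [he t]
          rcases hc : e t with x | x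
          · refine (h fun i hi => ⟨t, ?_⟩).elim
            rw [hc]
            simp only [Sum.elim_inl]
            omega
          · exact ⟨rfl, x.2⟩
        · obtain ⟨j, hj⟩ := (pa_iff _ _).1 h
          refine ⟨j.succ, fun t => ?_⟩
          rw [he t]
          simp only [emb1, Fin.cons_succ]
          exact ⟨by rw [(hj t).1], (hj t).2⟩
    · intro c
      rw [pa_iff]
      simp only [Function.Embedding.coeFn_mk]
      constructor
      · rintro ⟨i, hi⟩
        refine Fin.cases (fun hi => ?_) (fun j hi => ?_) i hi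
        · have h1 : ∀ t, ∃ x : Fin a ⊕ Fin s, c t = Sum.inl x := by
            intro t
            have h2 := hi t
            rcases hc : c t with x | p
            · exact ⟨x, rfl⟩
            · rw [hc] at h2
              simp only [emb1] at h2
              exact ((Fin.succ_ne_zero _) h2.1).elim
          choose e he using h1
          exact Or.inl ⟨e, he, trivial⟩
        · have h1 : ∀ t, ∃ p : Fin m × Fin T, c t = Sum.inr p := by
            intro t
            have h2 := hi t
            rcases hc : c t with (x | x) | p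
            · rw [hc] at h2
              simp only [emb1] at h2
              exact ((Fin.succ_ne_zero _) h2.1.symm).elim
            · rw [hc] at h2
              simp only [emb1] at h2
              exact ((Fin.succ_ne_zero _) h2.1.symm).elim
            · exact ⟨p, rfl⟩
          choose e he using h1
          refine Or.inr ⟨e, he, (pa_iff _ _).2 ⟨j, fun t => ?_⟩⟩
          have h2 := hi t
          rw [he t] at h2
          simp only [emb1, Fin.cons_succ] at h2
          exact ⟨Fin.succ_injective _ h2.1, h2.2⟩
      · rintro (⟨e, he, -⟩ | ⟨e, he, h⟩)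
        · refine ⟨0, fun t => ?_⟩
          rw [he t]
          rcases hc : e t with x | x
          · refine ⟨rfl, ?_⟩
            have := x.2
            simp only [emb1, Fin.cons_zero]
            omega
          · refine ⟨rfl, ?_⟩
            have := x.2
            simp only [emb1, Fin.cons_zero]
            omega
        · obtain ⟨j, hj⟩ := (pa_iff _ _).1 h
          refine ⟨j.succ, fun t => ?_⟩
          rw [he t]
          simp only [emb1, Fin.cons_succ]
          exact ⟨by rw [(hj t).1], (hj t).2⟩
  · rintro c ⟨t, ht⟩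
    have key : ∀ (s' : ℕ) (w : Fin m → ℕ), s' ≤ s + a → (∀ j, w j ≤ T) →
        ¬ pa (Fin.cons s' w : Fin (m + 1) → ℕ) c := by
      intro s' w hs' hw h
      obtain ⟨i, hi⟩ := (pa_iff _ _).1 h
      apply ht
      refine Fin.cases (fun h2 => ?_) (fun j h2 => ?_) i (hi t)
      · refine mem_emb1_zero hT s a hs _ h2.1 ?_
        have h3 := h2.2
        simp only [Fin.cons_zero] at h3
        omega
      · refine mem_emb1_succ hT s a hs _ j h2.1 ?_
        have h3 := h2.2
        simp only [Fin.cons_succ] at h3
        have := hw j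
        omega
    have k1 := key s u (Nat.le_add_right _ _) hu
    have k2 := key (s + a) u' le_rfl hu'
    simp only [k1, k2]

end Pool.Agent.U522.HJ
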