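import Mathlib
import Pool.Agent.U522.HJ.Step

set_option autoImplicit false

/-!
# The recursion for the norms
-/

namespace Pool.Agent.U522.HJ

open Finset Filter Topology Pool.Agent.TH7.DH Pool.Agent.R814.PHJ

variable {d : ℕ} (V : Ultrafilter ℕ) (hV : (V : Filter ℕ) ≤ atTop)
  (S : (N : ℕ) → Finset (Finset (Fin d → Fin N)))

/-- planting a full cube in an empty one is impossible -/
lemma raw_jn (hS : Adm S) (hd : 1 ≤ d) {ι ρ : Type} [Fintype ι] [Fintype ρ] [Nonempty ι]
    (E : (Fin d → ρ) → Prop) :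
    (raw V hV S).K (ι ⊕ ρ) (jn (fun _ => False) E) (jn (fun _ => True) E) = 0 := by
  classical
  refine raw_zero _ _ _ ?_
  have hm : ∀ c : Fin d → ι ⊕ ρ, (∀ t, c t ∈ (univ : Finset ι).map
      (Function.Embedding.inl : ι ↪ ι ⊕ ρ)) ↔ ∃ e : Fin d → ι, ∀ t, c t = Sum.inl (e t) := by
    intro c
    constructor
    · intro h
      have h1 : ∀ t, ∃ x, c t = Sum.inl x := by
        intro t
        obtain ⟨x, -, hx⟩ := Finset.mem_map.1 (h t)
        exact ⟨x, hx.symm⟩
      choose e he using h1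
      exact ⟨e, he⟩
    · rintro ⟨e, he⟩ t
      rw [he t]
      exact mem_map_of_mem _ (mem_univ _)
  refine excl hS ((univ : Finset ι).map (Function.Embedding.inl : ι ↪ ι ⊕ ρ)) ?_ ?_ ?_
  · obtain ⟨x⟩ := (inferInstance : Nonempty ι)
    exact ⟨Sum.inl x, mem_map_of_mem _ (mem_univ _)⟩
  · intro c hc
    obtain ⟨e, he⟩ := (hm c).1 hc
    rintro (⟨e', -, h⟩ | ⟨e', he', -⟩)
    · exact h
    · have h1 := he ⟨0, hd⟩
      rw [he' ⟨0, hd⟩] at h1
      cases h1
  · intro c
    rw [hm]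
    constructor
    · rintro (⟨e, he, -⟩ | ⟨e, he, h⟩)
      · exact Or.inr ⟨e, he⟩
      · exact Or.inl (Or.inr ⟨e, he, h⟩)
    · rintro ((⟨e, -, h⟩ | ⟨e, he, h⟩) | ⟨e, he⟩)
      · exact h.elim
      · exact Or.inr ⟨e, he, h⟩
      · exact Or.inl ⟨e, he, trivial⟩

/-- two vectors `w = p + z` with `p + z` small have small inner product -/
lemma pair_le (hS : Adm S) (hd : 1 ≤ d) {ι ρ : Type} [Fintype ι] [Fintype ρ] [Nonempty ι]
    (E E' : (Fin d → ρ) → Prop) :
    2 * (base V hV S hd).K ρ E E'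
      + ((base V hV S hd).K (ι ⊕ ρ) (jn (fun _ => False) E) (jn (fun _ => True) E')
        + (base V hV S hd).K (ι ⊕ ρ) (jn (fun _ => False) E') (jn (fun _ => True) E))
      ≤ 4 * (1 - 2 * (raw V hV S).v) := by
  set B := base V hV S hd with hB
  set D := (raw V hV S).v with hD
  have h := B.psdJ (ι ⊕ ρ) (J := Fin 4) ![1, 1, -1, -1]
    ![jn (fun _ => False) E, jn (fun _ => True) E, jn (fun _ => False) E', jn (fun _ => True) E']
  simp only [Fin.sum_univ_four, Matrix.cons_val_zero, Matrix.cons_val_one, Matrix.cons_val] at h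
  have s1 : ∀ P : (Fin d → ι ⊕ ρ) → Prop, B.K (ι ⊕ ρ) P P = 1 := fun P => B.K_same _ P
  have s2 : ∀ E : (Fin d → ρ) → Prop,
      B.K (ι ⊕ ρ) (jn (fun _ => False) E) (jn (fun _ => True) E) = 1 - 4 * D := by
    intro E
    change 4 * (raw V hV S).K (ι ⊕ ρ) (jn (fun _ => False) E) (jn (fun _ => True) E)
      - 4 * (raw V hV S).v + 1 = _
    rw [raw_jn V hV S hS hd E]
    ring
  have s3 : ∀ E : (Fin d → ρ) → Prop,
      B.K (ι ⊕ ρ) (jn (fun _ => True) E) (jn (fun _ => False) E) = 1 - 4 * D := by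
    intro E
    rw [B.K_symm, s2]
  have s4 : B.K (ι ⊕ ρ) (jn (fun _ => False) E) (jn (fun _ => False) E') = B.K ρ E E' :=
    B.K_jn_same hd _ _ (fun _ => Iff.rfl) E E'
  have s5 : B.K (ι ⊕ ρ) (jn (fun _ => True) E) (jn (fun _ => True) E') = B.K ρ E E' :=
    B.K_jn_same hd _ _ (fun _ => Iff.rfl) E E'
  have s6 : B.K (ι ⊕ ρ) (jn (fun _ => False) E') (jn (fun _ => False) E) = B.K ρ E E' := by
    rw [B.K_symm, s4]
  have s7 : B.K (ι ⊕ ρ) (jn (fun _ => True) E') (jn (fun _ => True) E) = B.K ρ E E' := by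
    rw [B.K_symm, s5]
  have s8 : B.K (ι ⊕ ρ) (jn (fun _ => True) E) (jn (fun _ => False) E')
      = B.K (ι ⊕ ρ) (jn (fun _ => False) E') (jn (fun _ => True) E) := B.K_symm _ _ _
  have s9 : B.K (ι ⊕ ρ) (jn (fun _ => True) E') (jn (fun _ => False) E)
      = B.K (ι ⊕ ρ) (jn (fun _ => False) E) (jn (fun _ => True) E') := B.K_symm _ _ _
  simp only [s1, s2, s3, s4, s5, s6, s7, s8, s9] at h
  linarith

variable {m n T : ℕ}

/-- the vector valued kernel of the average over all choices of sides -/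
noncomputable def DS (hd : 1 ≤ d) (sz : Fin m → Fin n → ℕ) (T : ℕ) : ASys d :=
  (base V hV S hd).der hd (Fin m × Fin T) (Fin m → Fin n) (fun _ => 1 / (n : ℝ) ^ m)
    (fun g => pa (fun j => sz j (g j)))

lemma sum_weights (hn : 1 ≤ n) :
    ∑ _g : Fin m → Fin n, ∑ _g' : Fin m → Fin n, 1 / (n : ℝ) ^ m * (1 / (n : ℝ) ^ m) = 1 := by
  have h1 : (0 : ℝ) < n := by exact_mod_cast hn
  simp only [sum_const, card_univ, Fintype.card_fun, Fintype.card_fin, nsmul_eq_mul]
  push_cast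
  field_simp

theorem DS_neg (hS : Adm S) (hd : 1 ≤ d) (hn : 1 ≤ n) (sz : Fin m → Fin n → ℕ) (ι : Type)
    [Fintype ι] [Nonempty ι] :
    (DS V hV S hd sz T).K ι (fun _ => False) (fun _ => True)
      ≤ 2 * (1 - 2 * (raw V hV S).v) - (DS V hV S hd sz T).v := by
  set B := base V hV S hd with hB
  set w : ℝ := 1 / (n : ℝ) ^ m with hw
  set E : (Fin m → Fin n) → (Fin d → Fin m × Fin T) → Prop := fun g => pa (fun j => sz j (g j))
    with hE
  have hww : 0 ≤ w * w := mul_self_nonneg w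
  have e1 : (DS V hV S hd sz T).K ι (fun _ => False) (fun _ => True)
      = ∑ g, ∑ g', w * w * B.K (ι ⊕ (Fin m × Fin T)) (jn (fun _ => False) (E g))
        (jn (fun _ => True) (E g')) := rfl
  have e2 : (DS V hV S hd sz T).v = ∑ g, ∑ g', w * w * B.K (Fin m × Fin T) (E g) (E g') := rfl
  have e3 : (DS V hV S hd sz T).K ι (fun _ => False) (fun _ => True)
      = ∑ g, ∑ g', w * w * B.K (ι ⊕ (Fin m × Fin T)) (jn (fun _ => False) (E g'))
        (jn (fun _ => True) (E g)) := by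
    rw [e1, sum_comm]
  have h1 : ∑ g, ∑ g', w * w * (2 * B.K (Fin m × Fin T) (E g) (E g')
      + (B.K (ι ⊕ (Fin m × Fin T)) (jn (fun _ => False) (E g)) (jn (fun _ => True) (E g'))
        + B.K (ι ⊕ (Fin m × Fin T)) (jn (fun _ => False) (E g')) (jn (fun _ => True) (E g))))
      ≤ ∑ _g : Fin m → Fin n, ∑ _g' : Fin m → Fin n, w * w * (4 * (1 - 2 * (raw V hV S).v)) :=
    sum_le_sum fun g _ => sum_le_sum fun g' _ =>
      mul_le_mul_of_nonneg_left (pair_le V hV S hS hd (E g) (E g')) hww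
  have h2 : ∑ _g : Fin m → Fin n, ∑ _g' : Fin m → Fin n, w * w * (4 * (1 - 2 * (raw V hV S).v))
      = 4 * (1 - 2 * (raw V hV S).v) := by
    have e4 : ∑ _g : Fin m → Fin n, ∑ _g' : Fin m → Fin n, w * w * (4 * (1 - 2 * (raw V hV S).v))
        = (∑ _g : Fin m → Fin n, ∑ _g' : Fin m → Fin n, w * w)
          * (4 * (1 - 2 * (raw V hV S).v)) := by
      rw [sum_mul]
      exact sum_congr rfl fun _ _ => by rw [sum_mul]
    rw [e4, hw, sum_weights hn, one_mul]
  rw [h2] at h1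
  have h3 : ∑ g, ∑ g', w * w * (2 * B.K (Fin m × Fin T) (E g) (E g')
      + (B.K (ι ⊕ (Fin m × Fin T)) (jn (fun _ => False) (E g)) (jn (fun _ => True) (E g'))
        + B.K (ι ⊕ (Fin m × Fin T)) (jn (fun _ => False) (E g')) (jn (fun _ => True) (E g))))
      = 2 * (DS V hV S hd sz T).v + ((DS V hV S hd sz T).K ι (fun _ => False) (fun _ => True)
        + (DS V hV S hd sz T).K ι (fun _ => False) (fun _ => True)) := by
    nth_rewrite 2 [e3]
    rw [e1, e2, mul_sum, ← sum_add_distrib, ← sum_add_distrib]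
    refine sum_congr rfl fun g _ => ?_
    rw [mul_sum, ← sum_add_distrib, ← sum_add_distrib]
    refine sum_congr rfl fun g' _ => ?_
    ring
  rw [h3] at h1
  linarith

/-- the defect is nonnegative -/
lemma defect_nonneg (hS : Adm S) (hd : 1 ≤ d) : 0 ≤ 1 - 2 * (raw V hV S).v := by
  have h := pair_le V hV S hS hd (ι := Unit) (ρ := Unit) (fun _ => False) (fun _ => False)
  have h1 : (base V hV S hd).K Unit (fun _ : Fin d → Unit => False) (fun _ => False) = 1 :=
    (base V hV S hd).K_same _ _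
  have h2 : (base V hV S hd).K (Unit ⊕ Unit)
      (jn (fun _ : Fin d → Unit => False) (fun _ : Fin d → Unit => False))
      (jn (fun _ => True) (fun _ => False)) = 1 - 4 * (raw V hV S).v := by
    change 4 * (raw V hV S).K (Unit ⊕ Unit) _ _ - 4 * (raw V hV S).v + 1 = _
    rw [raw_jn V hV S hS hd (fun _ => False)]
    ring
  have h3 := v_nonneg (V := V) (hV := hV) (S := S)
  have h4 := (abs_le.1 ((base V hV S hd).K_abs (Unit ⊕ Unit)
      (jn (fun _ : Fin d → Unit => False) (fun _ : Fin d → Unit => False))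
      (jn (fun _ => True) (fun _ => False))))
  have h5 := (base V hV S hd).psdJ (Unit ⊕ Unit) (J := Fin 2) ![1, 1]
    ![jn (fun _ : Fin d → Unit => False) (fun _ : Fin d → Unit => False),
      jn (fun _ => True) (fun _ => False)]
  simp only [Fin.sum_univ_two, Matrix.cons_val_zero, Matrix.cons_val_one] at h5
  rw [(base V hV S hd).K_same, (base V hV S hd).K_same,
    (base V hV S hd).K_symm _ (jn (fun _ => True) (fun _ => False)), h2] at h5
  have h6 : (base V hV S hd).v = 1 := rfl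
  rw [h6] at h5
  linarith

end Pool.Agent.U522.HJ
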