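import Mathlib
import Pool.Agent.U522.HJ.Rec

set_option autoImplicit false

/-!
# One step of the recursion
-/

namespace Pool.Agent.U522.HJ

open Finset Filter Topology Pool.Agent.TH7.DH Pool.Agent.R814.PHJ

variable {d : ℕ}

/-- the kernel of two nested cubes -/
noncomputable def kA (D : ASys d) (s s' : ℕ) : ℝ :=
  if s ≤ s' then D.κ 1 (Fin (s' - s)) (fun _ => 0) s else D.κ 1 (Fin (s - s')) (fun _ => 0) s'

lemma κ_Fin0 (D : ASys d) (s : ℕ) : D.κ 1 (Fin 0) (fun _ => 0) s = D.v := by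
  unfold ASys.κ ASys.Φ
  rw [← D.K_same (Fin 0 ⊕ Fin s) (fun _ => True)]
  refine D.K_congr (fun c => ?_) (fun c => Iff.rfl)
  rw [iff_true]
  intro hit
  obtain ⟨t, ht⟩ := hit 0 Nat.one_pos
  rcases hc : c t with x | x
  · exact x.elim0
  · rw [hc] at ht
    simp at ht

theorem exists_y (D : ASys d) {L : ℝ} (hL : 0 ≤ L)
    (hm : ∀ a, 1 ≤ a → mean (D.κ 1 (Fin a) (fun _ => 0)) ≤ L) (n : ℕ) {η : ℝ} (hη : 0 < η) :
    ∃ y : ℕ, ∑ g : Fin n, ∑ a : Fin n, kA D (y + (1 + g)) (y + (1 + a))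
      ≤ (n : ℝ) ^ 2 * L + n * D.v + η := by
  classical
  have kb : ∀ g a : ℕ, Bdd (fun y => kA D (y + (1 + g)) (y + (1 + a))) := by
    intro g a
    refine ⟨D.B, fun y => ?_⟩
    change |kA D (y + (1 + g)) (y + (1 + a))| ≤ D.B
    unfold kA
    split_ifs
    · exact D.K_abs _ _ _
    · exact D.K_abs _ _ _
  have km : ∀ g a : ℕ, mean (fun y => kA D (y + (1 + g)) (y + (1 + a)))
      ≤ L + (if g = a then D.v else 0) := by
    intro g a
    rcases lt_trichotomy g a with h | h | h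
    · have e : (fun y => kA D (y + (1 + g)) (y + (1 + a)))
          = fun y => D.κ 1 (Fin (a - g)) (fun _ => 0) (y + (1 + g)) := by
        funext y
        unfold kA
        rw [if_pos (by omega)]
        have e1 : y + (1 + a) - (y + (1 + g)) = a - g := by omega
        rw [e1]
      rw [e, mean_shift (1 + g) (D.κ_bdd 1 (Fin (a - g)) (fun _ => 0)), if_neg h.ne, add_zero]
      exact hm _ (by omega)
    · subst h
      have e : (fun y => kA D (y + (1 + g)) (y + (1 + g))) = fun _ => D.v := by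
        funext y
        unfold kA
        rw [if_pos le_rfl, Nat.sub_self, κ_Fin0]
      rw [e, mean_const, if_pos rfl]
      linarith
    · have e : (fun y => kA D (y + (1 + g)) (y + (1 + a)))
          = fun y => D.κ 1 (Fin (g - a)) (fun _ => 0) (y + (1 + a)) := by
        funext y
        unfold kA
        rw [if_neg (by omega)]
        have e1 : y + (1 + g) - (y + (1 + a)) = g - a := by omega
        rw [e1]
      rw [e, mean_shift (1 + a) (D.κ_bdd 1 (Fin (g - a)) (fun _ => 0)), if_neg h.ne', add_zero]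
      exact hm _ (by omega)
  have b1 : ∀ g : Fin n, Bdd (fun y => ∑ a : Fin n, kA D (y + (1 + (g : ℕ))) (y + (1 + (a : ℕ)))) :=
    fun g => bdd_sum _ (fun (a : Fin n) y => kA D (y + (1 + (g : ℕ))) (y + (1 + (a : ℕ))))
      fun a _ => kb g a
  have b2 : Bdd (fun y => ∑ g : Fin n, ∑ a : Fin n, kA D (y + (1 + (g : ℕ))) (y + (1 + (a : ℕ)))) :=
    bdd_sum _ (fun (g : Fin n) y => ∑ a : Fin n, kA D (y + (1 + (g : ℕ))) (y + (1 + (a : ℕ))))
      fun g _ => b1 g
  have h2 : ∀ g : Fin n, mean (fun y => ∑ a : Fin n, kA D (y + (1 + (g : ℕ))) (y + (1 + (a : ℕ))))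
      ≤ n * L + D.v := by
    intro g
    rw [mean_sum _ (fun (a : Fin n) y => kA D (y + (1 + (g : ℕ))) (y + (1 + (a : ℕ))))
      fun a _ => kb g a]
    refine (sum_le_sum fun (a : Fin n) (_ : a ∈ univ) => km (g : ℕ) (a : ℕ)).trans ?_
    rw [sum_add_distrib, sum_const, card_univ, Fintype.card_fin, nsmul_eq_mul]
    have h3 : ∑ a : Fin n, (if (g : ℕ) = a then D.v else 0) = D.v := by
      rw [sum_eq_single g]
      · simp
      · intro b _ hb
        rw [if_neg fun h => hb (Fin.ext h.symm)]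
      · intro h
        exact (h (mem_univ _)).elim
    rw [h3]
  have h3 : mean (fun y => ∑ g : Fin n, ∑ a : Fin n, kA D (y + (1 + (g : ℕ))) (y + (1 + (a : ℕ))))
      ≤ (n : ℝ) ^ 2 * L + n * D.v := by
    rw [mean_sum _ (fun (g : Fin n) y => ∑ a : Fin n, kA D (y + (1 + (g : ℕ))) (y + (1 + (a : ℕ))))
        fun g _ => b1 g]
    refine (sum_le_sum fun (g : Fin n) (_ : g ∈ univ) => h2 g).trans (le_of_eq ?_)
    rw [sum_const, card_univ, Fintype.card_fin, nsmul_eq_mul]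
    ring
  obtain ⟨y, -, hy⟩ := exists_le_of_mean b2 h3 hη 0
  exact ⟨y, hy⟩

variable (V : Ultrafilter ℕ) (hV : (V : Filter ℕ) ≤ atTop)
  (S : (N : ℕ) → Finset (Finset (Fin d → Fin N))) {m n T : ℕ}

theorem DS_mean (hS : Adm S) (hd : 1 ≤ d) (hn : 1 ≤ n) (sz : Fin m → Fin n → ℕ) (a : ℕ)
    (ha : 1 ≤ a) :
    mean ((DS V hV S hd sz T).κ 1 (Fin a) (fun _ => 0))
      ≤ (1 - 2 * (1 / 2) ^ (d - 1)) * (DS V hV S hd sz T).v
        + 2 * (1 / 2) ^ (d - 1) * (1 - 2 * (raw V hV S).v) := by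
  set D := DS V hV S hd sz T with hD
  have hmain := D.main (d - 1) (Nat.sub_le _ _) (Fin a) (fun _ => 0) (fun _ => by omega)
  have hd1 : d - (d - 1) = 1 := by omega
  rw [hd1] at hmain
  have h1 := (abs_le.1 hmain).2
  have h2 : D.κ 1 (Fin a) (fun _ => 0) 0 ≤ 2 * (1 - 2 * (raw V hV S).v) - D.v := by
    have h3 : D.κ 1 (Fin a) (fun _ => 0) 0 = D.K (Fin a ⊕ Fin 0) (fun _ => False)
        (fun _ => True) := by
      unfold ASys.κ ASys.Φ
      refine D.K_congr (fun c => ?_) (fun c => Iff.rfl)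
      rw [iff_false, not_not]
      intro i hi
      refine ⟨⟨0, hd⟩, ?_⟩
      rcases hc : c ⟨0, hd⟩ with x | x
      · simp only [Sum.elim_inl]
        omega
      · exact x.elim0
    rw [h3]
    have : Nonempty (Fin a ⊕ Fin 0) := ⟨Sum.inl ⟨0, ha⟩⟩
    exact DS_neg V hV S hS hd hn sz (Fin a ⊕ Fin 0)
  have h4 : (0 : ℝ) ≤ (1 / 2) ^ (d - 1) := by positivity
  have h5 := mul_le_mul_of_nonneg_left h2 h4
  linarith

lemma DS_K (hd : 1 ≤ d) (sz : Fin m → Fin n → ℕ) (ι : Type) [Fintype ι]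
    (P Q : (Fin d → ι) → Prop) :
    (DS V hV S hd sz T).K ι P Q = ∑ g : Fin m → Fin n, ∑ g' : Fin m → Fin n,
      1 / (n : ℝ) ^ m * (1 / (n : ℝ) ^ m) * (base V hV S hd).K (ι ⊕ (Fin m × Fin T))
        (jn P (pa fun j => sz j (g j))) (jn Q (pa fun j => sz j (g' j))) := rfl

lemma kA_eq (hd : 1 ≤ d) (sz : Fin m → Fin n → ℕ) (hsz : ∀ j a, sz j a ≤ T) {T' : ℕ}
    (hT : T ≤ T') (s s' : ℕ) (hs : s ≤ T') (hs' : s' ≤ T') :
    ∑ g : Fin m → Fin n, ∑ g' : Fin m → Fin n, 1 / (n : ℝ) ^ m * (1 / (n : ℝ) ^ m)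
      * (base V hV S hd).K (Fin (m + 1) × Fin T')
        (pa (Fin.cons s (fun j => sz j (g j)) : Fin (m + 1) → ℕ))
        (pa (Fin.cons s' (fun j => sz j (g' j)) : Fin (m + 1) → ℕ))
      = kA (DS V hV S hd sz T) s s' := by
  set B := base V hV S hd with hB
  have main : ∀ s s' : ℕ, s ≤ s' → s' ≤ T' →
      ∑ g : Fin m → Fin n, ∑ g' : Fin m → Fin n, 1 / (n : ℝ) ^ m * (1 / (n : ℝ) ^ m)
      * B.K (Fin (m + 1) × Fin T') (pa (Fin.cons s (fun j => sz j (g j)) : Fin (m + 1) → ℕ))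
        (pa (Fin.cons s' (fun j => sz j (g' j)) : Fin (m + 1) → ℕ))
      = (DS V hV S hd sz T).κ 1 (Fin (s' - s)) (fun _ => 0) s := by
    intro s s' h h'
    unfold ASys.κ ASys.Φ
    rw [DS_K]
    refine sum_congr rfl fun g _ => sum_congr rfl fun g' _ => ?_
    have h1 := transfer B hd hT (fun j => sz j (g j)) (fun j => sz j (g' j))
      (fun j => hsz _ _) (fun j => hsz _ _) s (s' - s) (by omega)
    have h2 : s + (s' - s) = s' := by omega
    rw [h2] at h1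
    rw [h1]
  unfold kA
  split_ifs with h
  · exact main s s' h hs'
  · rw [← main s' s (by omega) hs, sum_comm]
    refine sum_congr rfl fun g _ => sum_congr rfl fun g' _ => ?_
    rw [B.K_symm]

lemma DS_cons (hd : 1 ≤ d) (sz : Fin m → Fin n → ℕ) (hsz : ∀ j a, sz j a ≤ T) {T' : ℕ}
    (hT : T ≤ T') (q : Fin n → ℕ) (hq : ∀ a, q a ≤ T') :
    (DS V hV S hd (Fin.cons q sz : Fin (m + 1) → Fin n → ℕ) T').v
      = ∑ a : Fin n, ∑ a' : Fin n, 1 / (n : ℝ) * (1 / (n : ℝ))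
        * kA (DS V hV S hd sz T) (q a) (q a') := by
  set B := base V hV S hd with hB
  have hre : ∀ F : (Fin (m + 1) → Fin n) → ℝ,
      ∑ G, F G = ∑ a : Fin n, ∑ g : Fin m → Fin n, F (Fin.cons a g) := by
    intro F
    have h := (Fintype.sum_equiv (Fin.consEquiv (fun _ => Fin n))
      (fun p => F (Fin.cons p.1 p.2)) F (fun p => rfl)).symm
    rw [h, Fintype.sum_prod_type]
  have hsz' : ∀ (a : Fin n) (g : Fin m → Fin n),
      (fun j => (Fin.cons q sz : Fin (m + 1) → Fin n → ℕ) j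
        ((Fin.cons a g : Fin (m + 1) → Fin n) j))
      = (Fin.cons (q a) (fun j => sz j (g j)) : Fin (m + 1) → ℕ) := by
    intro a g
    funext j
    refine Fin.cases ?_ (fun j => ?_) j
    · simp
    · simp
  change ∑ G : Fin (m + 1) → Fin n, ∑ G' : Fin (m + 1) → Fin n,
    1 / (n : ℝ) ^ (m + 1) * (1 / (n : ℝ) ^ (m + 1)) * B.K (Fin (m + 1) × Fin T')
      (pa fun j => (Fin.cons q sz : Fin (m + 1) → Fin n → ℕ) j (G j))
      (pa fun j => (Fin.cons q sz : Fin (m + 1) → Fin n → ℕ) j (G' j)) = _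
  rw [hre]
  simp only [hre]
  simp only [hsz']
  refine sum_congr rfl fun a _ => ?_
  rw [sum_comm]
  refine sum_congr rfl fun a' _ => ?_
  rw [← kA_eq V hV S hd sz hsz hT (q a) (q a') (hq a) (hq a'), mul_sum]
  refine sum_congr rfl fun g _ => ?_
  rw [mul_sum]
  refine sum_congr rfl fun g' _ => ?_
  have e : 1 / (n : ℝ) ^ (m + 1) = 1 / (n : ℝ) * (1 / (n : ℝ) ^ m) := by
    rw [pow_succ, one_div_mul_one_div, mul_comm]
  rw [e]
  ring

theorem DS_step (hS : Adm S) (hd : 2 ≤ d) (hd' : 1 ≤ d) (hn : 1 ≤ n) (sz : Fin m → Fin n → ℕ)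
    (hsz : ∀ j a, 1 ≤ sz j a ∧ sz j a ≤ T) {η : ℝ} (hη : 0 < η) (hn9 : 9 / (n : ℝ) ≤ η)
    (hv : (DS V hV S hd' sz T).v ≤ 9) :
    ∃ (T' : ℕ) (sz' : Fin (m + 1) → Fin n → ℕ), (∀ j a, 1 ≤ sz' j a ∧ sz' j a ≤ T') ∧
      (DS V hV S hd' sz' T').v ≤ (1 - 2 * (1 / 2) ^ (d - 1)) * (DS V hV S hd' sz T).v
        + 2 * (1 / 2) ^ (d - 1) * (1 - 2 * (raw V hV S).v) + 2 * η := by
  classical
  set D := DS V hV S hd' sz T with hD
  have hn' : (0 : ℝ) < n := by exact_mod_cast hn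
  have hδ := defect_nonneg V hV S hS hd'
  have he : (2 : ℝ) * (1 / 2) ^ (d - 1) ≤ 1 := by
    obtain ⟨e, rfl⟩ : ∃ e, d = e + 2 := ⟨d - 2, by omega⟩
    have : e + 2 - 1 = e + 1 := by omega
    rw [this, pow_succ]
    have : ((1 : ℝ) / 2) ^ e ≤ 1 := pow_le_one₀ (by norm_num) (by norm_num)
    linarith
  have he0 : (0 : ℝ) ≤ 2 * (1 / 2) ^ (d - 1) := by positivity
  set L := (1 - 2 * (1 / 2) ^ (d - 1)) * D.v + 2 * (1 / 2) ^ (d - 1) * (1 - 2 * (raw V hV S).v)
    with hL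
  have hL0 : 0 ≤ L := add_nonneg (mul_nonneg (by linarith) D.v_nonneg) (mul_nonneg he0 hδ)
  obtain ⟨y, hy⟩ := exists_y D hL0 (fun a ha => DS_mean V hV S hS hd' hn sz a ha) n
    (η := η * n ^ 2) (by positivity)
  refine ⟨T + (y + (1 + n)), Fin.cons (fun a : Fin n => y + (1 + (a : ℕ))) sz, ?_, ?_⟩
  · intro j a
    refine Fin.cases ?_ (fun j => ?_) j
    · simp only [Fin.cons_zero]
      have := a.2
      constructor <;> omega
    · simp only [Fin.cons_succ]
      have := hsz j a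
      constructor <;> omega
  · rw [DS_cons V hV S hd' sz (fun j a => (hsz j a).2) (by omega)
      (fun a : Fin n => y + (1 + (a : ℕ))) (fun a => by have := a.2; omega)]
    have e1 : ∑ a : Fin n, ∑ a' : Fin n, 1 / (n : ℝ) * (1 / (n : ℝ))
        * kA (DS V hV S hd' sz T) (y + (1 + (a : ℕ))) (y + (1 + (a' : ℕ)))
        = (∑ a : Fin n, ∑ a' : Fin n, kA D (y + (1 + (a : ℕ))) (y + (1 + (a' : ℕ)))) / n ^ 2 := by
      rw [sum_div]
      refine sum_congr rfl fun a _ => ?_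
      rw [sum_div]
      refine sum_congr rfl fun a' _ => ?_
      rw [← hD]
      field_simp
    rw [e1, div_le_iff₀ (by positivity)]
    refine hy.trans ?_
    have h3 : D.v * n ≤ η * n ^ 2 := by
      have h4 : 9 ≤ η * n := by
        rw [div_le_iff₀ hn'] at hn9
        exact hn9
      have h5 : D.v * n ≤ 9 * n := mul_le_mul_of_nonneg_right hv hn'.le
      nlinarith
    nlinarith

end Pool.Agent.U522.HJ
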