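import Mathlib
import Pool.Agent.U522.HJ.Rec2
import Pool.Agent.U522.HJ.Cut

set_option autoImplicit false

/-!
# The lower bound for the norms
-/

namespace Pool.Agent.U522.HJ

open Finset Filter Topology Pool.Agent.TH7.DH Pool.Agent.R814.PHJ

variable {d : ℕ}

/-- choose one of the two places at every `j` -/
def emb2 {m T : ℕ} (y : Fin m → Bool) : Fin m × Fin T ↪ (Fin m × Bool) × Fin T where
  toFun := fun p => ((p.1, y p.1), p.2)
  inj' := by
    rintro ⟨j, z⟩ ⟨k, w⟩ h
    simp only [Prod.mk.injEq] at h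
    exact Prod.ext h.1.1 h.2

theorem loc2 (B : ASys d) (hd : 1 ≤ d) {m T : ℕ} (y : Fin m → Bool) (U U' : Fin m × Bool → ℕ)
    (F F' : Fin m × Bool → Prop) (hF : ∀ j, F (j, !y j) ↔ F' (j, !y j))
    (hU : ∀ j, F (j, !y j) → U (j, !y j) = U' (j, !y j)) :
    B.K ((Fin m × Bool) × Fin T) (pp U F) (pp U' F')
      = B.K (Fin m × Fin T) (pp (fun j => U (j, y j)) (fun j => F (j, y j)))
        (pp (fun j => U' (j, y j)) (fun j => F' (j, y j))) := by
  have red : ∀ (U : Fin m × Bool → ℕ) (F : Fin m × Bool → Prop) (c : Fin d → Fin m × Fin T),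
      pp U F (fun t => (emb2 y : Fin m × Fin T ↪ (Fin m × Bool) × Fin T) (c t)) ↔
        pp (fun j => U (j, y j)) (fun j => F (j, y j)) c := by
    intro U F c
    constructor
    · rintro ⟨i, hi, h⟩
      have h0 := (h ⟨0, hd⟩).1
      change ((c ⟨0, hd⟩).1, y (c ⟨0, hd⟩).1) = i at h0
      subst h0
      refine ⟨(c ⟨0, hd⟩).1, hi, fun t => ?_⟩
      have h1 := h t
      change ((c t).1, y (c t).1) = _ ∧ _ at h1
      exact ⟨(Prod.mk.inj h1.1).1, h1.2⟩
    · rintro ⟨i, hi, h⟩
      refine ⟨(i, y i), hi, fun t => ?_⟩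
      change ((c t).1, y (c t).1) = _ ∧ _
      have h1 := h t
      refine ⟨by rw [h1.1], h1.2⟩
  rw [B.K_loc (emb2 y : Fin m × Fin T ↪ (Fin m × Bool) × Fin T)]
  · exact B.K_congr (fun c => red U F c) (fun c => red U' F' c)
  · rintro c ⟨t, ht⟩
    have hne : (c t).1.2 = !y (c t).1.1 := by
      by_contra h
      have h1 : (c t).1.2 = y (c t).1.1 := by
        cases h2 : (c t).1.2 <;> cases h3 : y (c t).1.1 <;> rw [h2, h3] at h <;> simp at h ⊢
      apply ht
      refine ⟨((c t).1.1, (c t).2), ?_⟩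
      change (((c t).1.1, y (c t).1.1), (c t).2) = c t
      rw [← h1]
    have hi : ∀ i : Fin m × Bool, (c t).1 = i → i = (i.1, !y i.1) := by
      rintro i rfl
      exact Prod.ext rfl hne
    constructor
    · rintro ⟨i, h1, h2⟩
      have h3 := hi i (h2 t).1
      have h4 : F (i.1, !y i.1) := by rw [← h3]; exact h1
      have h5 : F' i := by rw [h3]; exact (hF i.1).1 h4
      have h6 : U i = U' i := by
        have := hU i.1 h4
        rwa [← h3] at this
      refine ⟨i, h5, fun t => ⟨(h2 t).1, ?_⟩⟩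
      rw [← h6]
      exact (h2 t).2
    · rintro ⟨i, h1, h2⟩
      have h3 := hi i (h2 t).1
      have h4 : F' (i.1, !y i.1) := by rw [← h3]; exact h1
      have h4' : F (i.1, !y i.1) := (hF i.1).2 h4
      have h5 : F i := by rw [h3]; exact h4'
      have h6 : U i = U' i := by
        have := hU i.1 h4'
        rwa [← h3] at this
      refine ⟨i, h5, fun t => ⟨(h2 t).1, ?_⟩⟩
      rw [h6]
      exact (h2 t).2

variable (V : Ultrafilter ℕ) (hV : (V : Filter ℕ) ≤ atTop)
  (S : (N : ℕ) → Finset (Finset (Fin d → Fin N)))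

/-- the sum over antipodal pairs of the cube of planted cubes -/
theorem iso_avg (hS : Adm S) (hd : 1 ≤ d) {m T : ℕ} (hm : 1 ≤ m) (s : Fin m → ℕ)
    (hs : ∀ j, 1 ≤ s j ∧ s j ≤ T) :
    (2 : ℝ) ^ m * (1 - (4 + 116 / 25 * Real.sqrt (2 * m)) * (1 - 2 * (raw V hV S).v))
      ≤ ∑ x : Fin m → Bool, (-1) ^ m * (base V hV S hd).K (Fin m × Fin T)
        (pp s (fun j => x j = true)) (pp s (fun j => neg x j = true)) := by
  classical
  set C : ℝ := 4 + 116 / 25 * Real.sqrt (2 * m) with hC
  set P : (Fin m → Bool) → (Fin d → Fin m × Fin T) → Prop := fun x => pp s (fun j => x j = true)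
    with hP
  -- adding a cube
  have add : ∀ (x : Fin m → Bool) (i : Fin m), x i = false → ∀ (N : ℕ)
      (φ : Fin m × Fin T ↪ Fin N) (A : Finset (Fin d → Fin N)),
      ¬ (ow φ (P x) A ∈ S N ∧ ow φ (P (fl i x)) A ∈ S N) := by
    intro x i hx N φ A
    set γ : Finset (Fin m × Fin T) := univ.filter (fun p => p.1 = i ∧ (p.2 : ℕ) < s i) with hγ
    have hmem : ∀ c : Fin d → Fin m × Fin T, (∀ t, c t ∈ γ) ↔
        ∀ t, (c t).1 = i ∧ ((c t).2 : ℕ) < s i := by
      intro c
      simp only [hγ, mem_filter, mem_univ, true_and]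
    refine excl hS γ ?_ ?_ ?_ N φ A
    · have := hs i
      refine ⟨(i, ⟨0, by omega⟩), ?_⟩
      rw [hγ, mem_filter]
      exact ⟨mem_univ _, rfl, by simp only; omega⟩
    · intro c hc
      have h1 := (hmem c).1 hc
      rintro ⟨k, hk, h2⟩
      have h3 : k = i := by rw [← (h2 ⟨0, hd⟩).1, (h1 ⟨0, hd⟩).1]
      rw [h3, hx] at hk
      cases hk
    · intro c
      rw [hmem]
      constructor
      · rintro ⟨k, hk, h2⟩
        by_cases hki : k = i
        · subst hki
          exact Or.inr h2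
        · refine Or.inl ⟨k, ?_, h2⟩
          have : fl i x k = x k := by simp [fl, hki]
          rwa [this] at hk
      · rintro (⟨k, hk, h2⟩ | h2)
        · refine ⟨k, ?_, h2⟩
          have hki : k ≠ i := by
            rintro rfl
            rw [hx] at hk
            cases hk
          have : fl i x k = x k := by simp [fl, hki]
          change fl i x k = true
          rw [this]
          exact hk
        · refine ⟨i, ?_, h2⟩
          simp [fl, hx]
  have h := ptw V hV S hd P (-(2 : ℝ) ^ m + C * 2 ^ m) (fun _ => -2 * C)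
    (fun x x' => if x' = neg x then (-1 : ℝ) ^ m else 0) ?_
  · simp only [sum_const, card_univ, Fintype.card_fun, Fintype.card_bool, Fintype.card_fin,
      nsmul_eq_mul, ite_mul, zero_mul, sum_ite_eq', mem_univ, if_true] at h
    push_cast at h
    change _ ≤ ∑ x : Fin m → Bool, (-1) ^ m * (base V hV S hd).K (Fin m × Fin T) (P x)
      (P (neg x))
    have h2 : ∑ x : Fin m → Bool, (-1) ^ m * (base V hV S hd).K (Fin m × Fin T) (P x) (P (neg x))
        = ∑ x : Fin m → Bool, (-1 : ℝ) ^ m
          * (base V hV S hd).K (Fin m × Fin T) (P x) (P (neg x)) := rfl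
    rw [h2]
    linarith
  · intro N φ A
    set I : Set (Fin m → Bool) := {x | ow φ (P x) A ∈ S N} with hI
    have hii : ∀ x, ind (S N) (ow φ (P x) A) = ii I x := by
      intro x
      by_cases hx : ow φ (P x) A ∈ S N
      · have : x ∈ I := hx
        rw [ii_mem this, ind, if_pos hx]
      · have : x ∉ I := hx
        rw [ii_notMem this, ind, if_neg hx]
    have hind : ∀ x ∈ I, ∀ i, fl i x ∉ I := by
      intro x hx i hfl
      cases hxi : x i
      · exact add x i hxi N φ A ⟨hx, hfl⟩
      · have h1 : fl i x i = false := by simp [fl, hxi]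
        refine add (fl i x) i h1 N φ A ⟨hfl, ?_⟩
        rw [fl_fl]
        exact hx
    have hcut : 1 - C * (1 - 2 * mu (ii I)) ≤ mu (fun x => (-1) ^ m * (FF I x * FF I (neg x))) :=
      cut I hm hind
    simp only [hii, ite_mul, zero_mul, sum_ite_eq', mem_univ, if_true]
    rw [← mul_sum]
    have e1 : ∑ x, ii I x = 2 ^ m * mu (ii I) := by
      unfold mu
      field_simp
    have e2 : ∑ x : Fin m → Bool, (-1 : ℝ) ^ m * ((2 * ii I x - 1) * (2 * ii I (neg x) - 1))
        = 2 ^ m * mu (fun x => (-1) ^ m * (FF I x * FF I (neg x))) := by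
      unfold mu FF
      field_simp
    rw [e1, e2]
    have h2 : (0 : ℝ) < 2 ^ m := by positivity
    have h3 := mul_le_mul_of_nonneg_left hcut h2.le
    linarith

end Pool.Agent.U522.HJ
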