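import Mathlib
import Pool.Agent.U522.HJ.Low

set_option autoImplicit false

/-!
# The lower bound for the norms, second part
-/

namespace Pool.Agent.U522.HJ

open Finset Filter Topology Pool.Agent.TH7.DH Pool.Agent.R814.PHJ

variable {d : ℕ}

lemma pp_congr {J : Type} {T : ℕ} {U U' : J → ℕ} {F F' : J → Prop} (hF : ∀ i, F i ↔ F' i)
    (hU : ∀ i, F i → U i = U' i) (c : Fin d → J × Fin T) : pp U F c ↔ pp U' F' c := by
  constructor
  · rintro ⟨i, h1, h2⟩
    exact ⟨i, (hF i).1 h1, fun t => ⟨(h2 t).1, by rw [← hU i h1]; exact (h2 t).2⟩⟩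
  · rintro ⟨i, h1, h2⟩
    have h3 := (hF i).2 h1
    exact ⟨i, h3, fun t => ⟨(h2 t).1, by rw [hU i h3]; exact (h2 t).2⟩⟩

/-- the sides at the two places -/
def sides {m n : ℕ} (sz : Fin m → Fin n → ℕ) (g g' : Fin m → Fin n) (p : Fin m × Bool) : ℕ :=
  if p.2 = true then sz p.1 (g' p.1) else sz p.1 (g p.1)

/-- the kernel of two collections of cubes at disjoint places -/
noncomputable def cross (B : ASys d) {m n : ℕ} (sz : Fin m → Fin n → ℕ) (T : ℕ)
    (g g' : Fin m → Fin n) : ℝ :=
  B.K ((Fin m × Bool) × Fin T) (pp (sides sz g g') (fun p => p.2 = false))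
    (pp (sides sz g g') (fun p => p.2 = true))

/-- choose coordinates of `g` or `g'` -/
def mixg {m n : ℕ} (x : Fin m → Bool) (g g' : Fin m → Fin n) : Fin m → Fin n :=
  fun j => if x j = true then g' j else g j

lemma mixg_mixg {m n : ℕ} (x : Fin m → Bool) (g g' : Fin m → Fin n) :
    mixg x (mixg x g g') (mixg x g' g) = g := by
  funext j
  unfold mixg
  cases x j <;> simp

variable (V : Ultrafilter ℕ) (hV : (V : Filter ℕ) ≤ atTop)
  (S : (N : ℕ) → Finset (Finset (Fin d → Fin N)))

lemma tri (hd : 1 ≤ d) {ι : Type} [Fintype ι] (P Q R : (Fin d → ι) → Prop) (σ : ℝ)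
    (hσ : σ = 1 ∨ σ = -1) :
    σ * (base V hV S hd).K ι P R + σ * (base V hV S hd).K ι R Q - 1
      ≤ (base V hV S hd).K ι P Q := by
  have h := ptw V hV S hd ![P, Q, R] 1 (fun _ => 0)
    ![![0, 1, -σ], ![0, 0, 0], ![0, -σ, 0]] ?_
  · simp only [Fin.sum_univ_three, Matrix.cons_val_zero, Matrix.cons_val_one, Matrix.cons_val] at h
    linarith
  · intro N φ A
    simp only [Fin.sum_univ_three, Matrix.cons_val_zero, Matrix.cons_val_one, Matrix.cons_val]
    rcases ind01 (S N) (ow φ P A) with h1 | h1 <;> rcases ind01 (S N) (ow φ Q A) with h2 | h2 <;>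
      rcases ind01 (S N) (ow φ R A) with h3 | h3 <;> rcases hσ with rfl | rfl <;>
      rw [h1, h2, h3] <;> norm_num

variable {m n T : ℕ}

theorem cross_le (hd : 1 ≤ d) (sz : Fin m → Fin n → ℕ) :
    ∑ g : Fin m → Fin n, ∑ g' : Fin m → Fin n, 1 / (n : ℝ) ^ m * (1 / (n : ℝ) ^ m)
      * cross (base V hV S hd) sz T g g' ≤ (DS V hV S hd sz T).v := by
  classical
  set B := base V hV S hd with hB
  set w : ℝ := 1 / (n : ℝ) ^ m with hw
  have h := B.psdJ ((Fin m × Bool) × Fin T) (J := (Fin m → Fin n) ⊕ (Fin m → Fin n))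
    (Sum.elim (fun _ => w) (fun _ => -w))
    (Sum.elim (fun g => pp (fun p => sz p.1 (g p.1)) (fun p => p.2 = false))
      (fun g => pp (fun p => sz p.1 (g p.1)) (fun p => p.2 = true)))
  have same : ∀ (b : Bool) (g g' : Fin m → Fin n),
      B.K ((Fin m × Bool) × Fin T) (pp (fun p => sz p.1 (g p.1)) (fun p => p.2 = b))
        (pp (fun p => sz p.1 (g' p.1)) (fun p => p.2 = b))
      = B.K (Fin m × Fin T) (pa fun j => sz j (g j)) (pa fun j => sz j (g' j)) := by
    intro b g g'
    rw [loc2 B hd (fun _ => b) (fun p => sz p.1 (g p.1)) (fun p => sz p.1 (g' p.1))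
      (fun p => p.2 = b) (fun p => p.2 = b) (fun j => Iff.rfl)
      (fun j hj => by cases b <;> simp at hj)]
    unfold pa
    exact B.K_congr (fun c => pp_congr (fun i => by simp) (fun i _ => rfl) c)
      (fun c => pp_congr (fun i => by simp) (fun i _ => rfl) c)
  have ft : ∀ g g' : Fin m → Fin n,
      B.K ((Fin m × Bool) × Fin T) (pp (fun p => sz p.1 (g p.1)) (fun p => p.2 = false))
        (pp (fun p => sz p.1 (g' p.1)) (fun p => p.2 = true)) = cross B sz T g g' := by
    intro g g'
    unfold cross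
    refine B.K_congr (fun c => pp_congr (fun i => Iff.rfl) (fun i hi => ?_) c)
      (fun c => pp_congr (fun i => Iff.rfl) (fun i hi => ?_) c)
    · unfold sides
      rw [if_neg (by rw [hi]; decide)]
    · unfold sides
      rw [if_pos hi]
  have tf : ∀ g g' : Fin m → Fin n,
      B.K ((Fin m × Bool) × Fin T) (pp (fun p => sz p.1 (g p.1)) (fun p => p.2 = true))
        (pp (fun p => sz p.1 (g' p.1)) (fun p => p.2 = false)) = cross B sz T g' g := by
    intro g g'
    rw [B.K_symm, ft]
  simp only [Fintype.sum_sum_type, Sum.elim_inl, Sum.elim_inr, same, ft, tf] at h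
  have e1 : (DS V hV S hd sz T).v = ∑ g : Fin m → Fin n, ∑ g' : Fin m → Fin n, w * w
      * B.K (Fin m × Fin T) (pa fun j => sz j (g j)) (pa fun j => sz j (g' j)) := rfl
  have e2 : ∑ g : Fin m → Fin n, ∑ g' : Fin m → Fin n, w * w * cross B sz T g' g
      = ∑ g : Fin m → Fin n, ∑ g' : Fin m → Fin n, w * w * cross B sz T g g' := sum_comm
  have e3 : ∀ (a : ℝ) (f : (Fin m → Fin n) → (Fin m → Fin n) → ℝ),
      ∑ g, ∑ g', -(w * w) * f g g' = - ∑ g, ∑ g', w * w * f g g' := by
    intro _ f
    rw [← sum_neg_distrib]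
    refine sum_congr rfl fun g _ => ?_
    rw [← sum_neg_distrib]
    exact sum_congr rfl fun g' _ => by ring
  simp only [sum_add_distrib, mul_neg, neg_mul, neg_neg, sum_neg_distrib] at h
  rw [e2, ← e1] at h
  linarith

theorem low (hS : Adm S) (hd : 1 ≤ d) (hm : 1 ≤ m) (hn : 1 ≤ n) (sz : Fin m → Fin n → ℕ)
    (hsz : ∀ j a, 1 ≤ sz j a ∧ sz j a ≤ T) :
    1 - 2 * (4 + 116 / 25 * Real.sqrt (2 * m)) * (1 - 2 * (raw V hV S).v) ≤ (DS V hV S hd sz T).v := by
  classical
  set B := base V hV S hd with hB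
  set C : ℝ := (4 + 116 / 25 * Real.sqrt (2 * m)) * (1 - 2 * (raw V hV S).v) with hC
  set w : ℝ := 1 / (n : ℝ) ^ m with hw
  have h2m : (0 : ℝ) < 2 ^ m := by positivity
  -- one pair
  have pair : ∀ g g' : Fin m → Fin n, (2 : ℝ) ^ m * (1 - 2 * C)
      ≤ ∑ x : Fin m → Bool, cross B sz T (mixg x g g') (mixg x g' g) := by
    intro g g'
    have i1 := iso_avg V hV S hS hd hm (fun j => sz j (g j)) (fun j => hsz _ _)
    have i2 := iso_avg V hV S hS hd hm (fun j => sz j (g' j)) (fun j => hsz _ _)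
    have hσ : ((-1 : ℝ) ^ m = 1 ∨ (-1 : ℝ) ^ m = -1) := neg_one_pow_eq_or ℝ m
    have hx : ∀ x : Fin m → Bool,
        (-1 : ℝ) ^ m * B.K (Fin m × Fin T) (pp (fun j => sz j (g j)) (fun j => x j = true))
          (pp (fun j => sz j (g j)) (fun j => neg x j = true))
        + (-1 : ℝ) ^ m * B.K (Fin m × Fin T) (pp (fun j => sz j (g' j)) (fun j => x j = true))
          (pp (fun j => sz j (g' j)) (fun j => neg x j = true)) - 1
        ≤ cross B sz T (mixg x g g') (mixg x g' g) := by
      intro x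
      set U := sides sz (mixg x g g') (mixg x g' g) with hU
      have h1 := tri V hV S hd (ι := (Fin m × Bool) × Fin T) (pp U (fun p => p.2 = false))
        (pp U (fun p => p.2 = true)) (pp U (fun p => x p.1 = true)) _ hσ
      have k1 : B.K ((Fin m × Bool) × Fin T) (pp U (fun p => p.2 = false))
          (pp U (fun p => x p.1 = true))
          = B.K (Fin m × Fin T) (pp (fun j => sz j (g j)) (fun j => x j = true))
          (pp (fun j => sz j (g j)) (fun j => neg x j = true)) := by
        rw [loc2 B hd x U U _ _ (fun j => by cases x j <;> simp) (fun j _ => rfl), B.K_symm]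
        refine B.K_congr (fun c => pp_congr (fun j => Iff.rfl) (fun j _ => ?_) c)
          (fun c => pp_congr (fun j => ?_) (fun j _ => ?_) c)
        · rw [hU]
          unfold sides mixg
          cases x j <;> simp
        · unfold neg
          cases x j <;> simp
        · rw [hU]
          unfold sides mixg
          cases x j <;> simp
      have k2 : B.K ((Fin m × Bool) × Fin T) (pp U (fun p => x p.1 = true))
          (pp U (fun p => p.2 = true))
          = B.K (Fin m × Fin T) (pp (fun j => sz j (g' j)) (fun j => x j = true))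
          (pp (fun j => sz j (g' j)) (fun j => neg x j = true)) := by
        rw [loc2 B hd (neg x) U U _ _ (fun j => by unfold neg; cases x j <;> simp)
          (fun j _ => rfl)]
        refine B.K_congr (fun c => pp_congr (fun j => Iff.rfl) (fun j _ => ?_) c)
          (fun c => pp_congr (fun j => Iff.rfl) (fun j _ => ?_) c)
        · rw [hU]
          unfold sides mixg neg
          cases x j <;> simp
        · rw [hU]
          unfold sides mixg neg
          cases x j <;> simp
      have h2 : cross B sz T (mixg x g g') (mixg x g' g)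
          = B.K ((Fin m × Bool) × Fin T) (pp U (fun p => p.2 = false))
            (pp U (fun p => p.2 = true)) := rfl
      rw [← hB, k1, k2, ← h2] at h1
      exact h1
    have h3 := sum_le_sum fun (x : Fin m → Bool) (_ : x ∈ univ) => hx x
    rw [sum_sub_distrib, sum_add_distrib] at h3
    have h4 : ∑ _x : Fin m → Bool, (1 : ℝ) = 2 ^ m := by simp
    rw [h4] at h3
    have e : (2 : ℝ) ^ m * (1 - 2 * C) = 2 ^ m * (1 - C) + 2 ^ m * (1 - C) - 2 ^ m := by ring
    rw [e]
    exact (sub_le_sub_right (add_le_add i1 i2) _).trans h3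
  -- average
  have swap : ∀ x : Fin m → Bool, ∑ g : Fin m → Fin n, ∑ g' : Fin m → Fin n,
      cross B sz T (mixg x g g') (mixg x g' g)
      = ∑ g : Fin m → Fin n, ∑ g' : Fin m → Fin n, cross B sz T g g' := by
    intro x
    rw [← Fintype.sum_prod_type' (fun g g' => cross B sz T (mixg x g g') (mixg x g' g)),
      ← Fintype.sum_prod_type' (fun g g' => cross B sz T g g')]
    refine Fintype.sum_bijective (fun p : (Fin m → Fin n) × (Fin m → Fin n) =>
      (mixg x p.1 p.2, mixg x p.2 p.1)) ?_ _ _ fun p => rfl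
    refine Function.Involutive.bijective fun p => ?_
    exact Prod.ext (mixg_mixg x p.1 p.2) (mixg_mixg x p.2 p.1)
  have tot : ∑ _g : Fin m → Fin n, ∑ _g' : Fin m → Fin n, (2 : ℝ) ^ m * (1 - 2 * C)
      ≤ 2 ^ m * ∑ g : Fin m → Fin n, ∑ g' : Fin m → Fin n, cross B sz T g g' := by
    refine (sum_le_sum fun g _ => sum_le_sum fun g' _ => pair g g').trans (le_of_eq ?_)
    have e1 : ∀ g : Fin m → Fin n, ∑ g' : Fin m → Fin n, ∑ x : Fin m → Bool,
        cross B sz T (mixg x g g') (mixg x g' g)
        = ∑ x : Fin m → Bool, ∑ g' : Fin m → Fin n,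
        cross B sz T (mixg x g g') (mixg x g' g) := fun g => sum_comm
    rw [sum_congr rfl fun g _ => e1 g, sum_comm, sum_congr rfl fun x _ => swap x, sum_const,
      card_univ, Fintype.card_fun, Fintype.card_bool, Fintype.card_fin, nsmul_eq_mul]
    push_cast
    rfl
  refine le_trans ?_ (cross_le V hV S hd sz)
  have hww : 0 ≤ w * w := mul_self_nonneg w
  have e2 : ∑ g : Fin m → Fin n, ∑ g' : Fin m → Fin n, w * w * cross B sz T g g'
      = w * w * ∑ g : Fin m → Fin n, ∑ g' : Fin m → Fin n, cross B sz T g g' := by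
    rw [mul_sum]
    exact sum_congr rfl fun g _ => by rw [mul_sum]
  have e3 : ∑ _g : Fin m → Fin n, ∑ _g' : Fin m → Fin n, (2 : ℝ) ^ m * (1 - 2 * C)
      = 2 ^ m * ((∑ _g : Fin m → Fin n, ∑ _g' : Fin m → Fin n, (1 : ℝ)) * (1 - 2 * C)) := by
    rw [sum_mul, mul_sum]
    refine sum_congr rfl fun g _ => ?_
    rw [sum_mul, mul_sum]
    exact sum_congr rfl fun g' _ => by ring
  rw [e3] at tot
  have tot' := le_of_mul_le_mul_left tot h2m
  have h5 := mul_le_mul_of_nonneg_left tot' hww
  have e4 : w * w * ((∑ _g : Fin m → Fin n, ∑ _g' : Fin m → Fin n, (1 : ℝ)) * (1 - 2 * C))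
      = 1 - 2 * C := by
    have h6 := sum_weights (m := m) hn
    have h7 : w * w * (∑ _g : Fin m → Fin n, ∑ _g' : Fin m → Fin n, (1 : ℝ)) = 1 := by
      have h8 : w * w * (∑ _g : Fin m → Fin n, ∑ _g' : Fin m → Fin n, (1 : ℝ))
          = ∑ _g : Fin m → Fin n, ∑ _g' : Fin m → Fin n, w * w := by
        rw [mul_sum]
        refine sum_congr rfl fun g _ => ?_
        rw [mul_sum]
        exact sum_congr rfl fun g' _ => by rw [mul_one]
      rw [h8]
      exact h6
    rw [← mul_assoc, h7, one_mul]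
  rw [e4, ← e2] at h5
  refine le_trans (le_of_eq ?_) h5
  rw [hC]
  ring

end Pool.Agent.U522.HJ
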