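import Mathlib
import Pool.Agent.U522.HJ.Low2

set_option autoImplicit false

/-!
# The bound for the density
-/

namespace Pool.Agent.U522.HJ

open Finset Filter Topology Pool.Agent.TH7.DH Pool.Agent.R814.PHJ

variable {d : ℕ} (V : Ultrafilter ℕ) (hV : (V : Filter ℕ) ≤ atTop)
  (S : (N : ℕ) → Finset (Finset (Fin d → Fin N)))

lemma DS_v_le (hd : 1 ≤ d) {m n T : ℕ} (hn : 1 ≤ n) (sz : Fin m → Fin n → ℕ) :
    (DS V hV S hd sz T).v ≤ 9 := by
  set w : ℝ := 1 / (n : ℝ) ^ m with hw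
  have hww : 0 ≤ w * w := mul_self_nonneg w
  have e1 : (DS V hV S hd sz T).v = ∑ g : Fin m → Fin n, ∑ g' : Fin m → Fin n, w * w
      * (base V hV S hd).K (Fin m × Fin T) (pa fun j => sz j (g j)) (pa fun j => sz j (g' j)) :=
    rfl
  have h1 : ∑ g : Fin m → Fin n, ∑ g' : Fin m → Fin n, w * w
      * (base V hV S hd).K (Fin m × Fin T) (pa fun j => sz j (g j)) (pa fun j => sz j (g' j))
      ≤ ∑ _g : Fin m → Fin n, ∑ _g' : Fin m → Fin n, w * w * 9 :=
    sum_le_sum fun g _ => sum_le_sum fun g' _ =>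
      mul_le_mul_of_nonneg_left (abs_le.1 ((base V hV S hd).K_abs _ _ _)).2 hww
  have h2 : ∑ _g : Fin m → Fin n, ∑ _g' : Fin m → Fin n, w * w * 9 = 9 := by
    have e4 : ∑ _g : Fin m → Fin n, ∑ _g' : Fin m → Fin n, w * w * (9 : ℝ)
        = (∑ _g : Fin m → Fin n, ∑ _g' : Fin m → Fin n, w * w) * 9 := by
      rw [sum_mul]
      exact sum_congr rfl fun _ _ => by rw [sum_mul]
    rw [e4, hw, sum_weights hn, one_mul]
  rw [e1]
  exact h1.trans h2.le

theorem DS_iter (hS : Adm S) (hd : 2 ≤ d) (hd' : 1 ≤ d) {n : ℕ} (hn : 1 ≤ n) {η : ℝ} (hη : 0 < η)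
    (hn9 : 9 / (n : ℝ) ≤ η) (m : ℕ) :
    ∃ (T : ℕ) (sz : Fin m → Fin n → ℕ), (∀ j a, 1 ≤ sz j a ∧ sz j a ≤ T) ∧
      (DS V hV S hd' sz T).v ≤ (1 - 2 * (raw V hV S).v)
        + (1 - 2 * (1 / 2) ^ (d - 1)) ^ m + 2 * m * η := by
  have hδ := defect_nonneg V hV S hS hd'
  have he : (2 : ℝ) * (1 / 2) ^ (d - 1) ≤ 1 := by
    obtain ⟨e, rfl⟩ : ∃ e, d = e + 2 := ⟨d - 2, by omega⟩
    have : e + 2 - 1 = e + 1 := by omega
    rw [this, pow_succ]
    have : ((1 : ℝ) / 2) ^ e ≤ 1 := pow_le_one₀ (by norm_num) (by norm_num)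
    linarith
  have he0 : (0 : ℝ) ≤ 2 * (1 / 2) ^ (d - 1) := by positivity
  induction m with
  | zero =>
    refine ⟨0, fun j => j.elim0, fun j => j.elim0, ?_⟩
    have e1 : (DS V hV S hd' (fun j => j.elim0 : Fin 0 → Fin n → ℕ) 0).v = 1 := by
      have e2 : (DS V hV S hd' (fun j => j.elim0 : Fin 0 → Fin n → ℕ) 0).v
          = ∑ g : Fin 0 → Fin n, ∑ g' : Fin 0 → Fin n, 1 / (n : ℝ) ^ 0 * (1 / (n : ℝ) ^ 0)
          * (base V hV S hd').K (Fin 0 × Fin 0) (pa fun j => (fun j => j.elim0 : Fin 0 → Fin n → ℕ)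
            j (g j)) (pa fun j => (fun j => j.elim0 : Fin 0 → Fin n → ℕ) j (g' j)) := rfl
      have e3 : ∀ u u' : Fin 0 → ℕ, (base V hV S hd').K (Fin 0 × Fin 0) (pa u) (pa u') = 1 := by
        intro u u'
        have : u = u' := Subsingleton.elim _ _
        rw [this]
        exact (base V hV S hd').K_same _ _
      rw [e2]
      simp only [e3]
      simp
    rw [e1]
    simp only [pow_zero, Nat.cast_zero, mul_zero, zero_mul, add_zero]
    linarith
  | succ m ih =>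
    obtain ⟨T, sz, hsz, hv⟩ := ih
    obtain ⟨T', sz', hsz', hv'⟩ := DS_step V hV S hS hd hd' hn sz hsz hη hn9
      (DS_v_le V hV S hd' hn sz)
    refine ⟨T', sz', hsz', hv'.trans ?_⟩
    set q : ℝ := 2 * (1 / 2) ^ (d - 1) with hq
    set δ : ℝ := 1 - 2 * (raw V hV S).v with hδ'
    have h1 : (1 - q) * (DS V hV S hd' sz T).v ≤ (1 - q) * (δ + (1 - q) ^ m + 2 * m * η) :=
      mul_le_mul_of_nonneg_left hv (by linarith)
    have h2 : (0 : ℝ) ≤ q * (2 * m * η) := mul_nonneg he0 (by positivity)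
    rw [pow_succ]
    push_cast
    nlinarith

/-- the bound for the density -/
theorem bound (hS : Adm S) (hd : 2 ≤ d) {m : ℕ} (hm : 1 ≤ m) :
    1 ≤ (1 - 2 * (1 / 2) ^ (d - 1)) ^ m
      + (9 + 232 / 25 * Real.sqrt (2 * m)) * (1 - 2 * (raw V hV S).v) := by
  have hd' : 1 ≤ d := by omega
  refine le_of_forall_pos_le_add fun ζ hζ => ?_
  have hm' : (0 : ℝ) < m := by exact_mod_cast hm
  set η : ℝ := ζ / (2 * m) with hη
  have hη0 : 0 < η := by positivity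
  obtain ⟨n, hn⟩ := exists_nat_gt (max (9 / η) 1)
  have hn1 : (1 : ℝ) < n := lt_of_le_of_lt (le_max_right _ _) hn
  have hn9 : 9 / η < n := lt_of_le_of_lt (le_max_left _ _) hn
  have hn1' : 1 ≤ n := by
    have : (1 : ℝ) ≤ n := hn1.le
    exact_mod_cast this
  have hn9' : 9 / (n : ℝ) ≤ η := by
    rw [div_le_iff₀ (by linarith)]
    rw [div_lt_iff₀ hη0] at hn9
    linarith
  obtain ⟨T, sz, hsz, hv⟩ := DS_iter V hV S hS hd hd' hn1' hη0 hn9' m
  have hlow := low V hV S hS hd' hm hn1' sz hsz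
  have h3 : 2 * (m : ℝ) * η = ζ := by
    rw [hη]
    field_simp
  rw [h3] at hv
  nlinarith

end Pool.Agent.U522.HJ
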